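import Pool.Agent.U574.FS.Trig

set_option autoImplicit false

/-!
Assembly lemmas.
-/

namespace Pool.Agent.U574.FS

open Set Filter Topology

lemma per_fract {g : ℝ → ℝ → ℝ} (hx : ∀ x y, g (x + 1) y = g x y)
    (hy : ∀ x y, g x (y + 1) = g x y) (x y : ℝ) : g x y = g (Int.fract x) (Int.fract y) := by
  have h1 : Function.Periodic (fun x => g x y) 1 := fun x => hx x y
  have h2 : Function.Periodic (fun y => g (Int.fract x) y) 1 := fun y => hy _ y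
  have e1 : g x y = g (Int.fract x) y := by
    have := (h1.int_mul ⌊x⌋) (Int.fract x)
    simp only [mul_one] at this
    rw [Int.fract_add_floor] at this
    exact this
  have e2 : g (Int.fract x) y = g (Int.fract x) (Int.fract y) := by
    have := (h2.int_mul ⌊y⌋) (Int.fract y)
    simp only [mul_one] at this
    rw [Int.fract_add_floor] at this
    exact this
  rw [e1, e2]

lemma bdd_per {g : ℝ → ℝ → ℝ} (hc : Continuous (fun q : ℝ × ℝ => g q.1 q.2))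
    (hx : ∀ x y, g (x + 1) y = g x y) (hy : ∀ x y, g x (y + 1) = g x y) :
    ∃ M, 0 ≤ M ∧ ∀ x y, |g x y| ≤ M := by
  obtain ⟨M, hM⟩ := (isCompact_Icc (a := ((0, 0) : ℝ × ℝ)) (b := (1, 1))).exists_bound_of_continuousOn
    hc.continuousOn
  refine ⟨|M|, abs_nonneg M, fun x y => ?_⟩
  rw [per_fract hx hy]
  refine (hM (Int.fract x, Int.fract y) ⟨⟨Int.fract_nonneg _, Int.fract_nonneg _⟩,
    ⟨(Int.fract_lt_one _).le, (Int.fract_lt_one _).le⟩⟩).trans (le_abs_self M)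

lemma neg_per {g : ℝ → ℝ → ℝ} (hc : Continuous (fun q : ℝ × ℝ => g q.1 q.2))
    (hx : ∀ x y, g (x + 1) y = g x y) (hy : ∀ x y, g x (y + 1) = g x y)
    (hneg : ∀ x y, g x y < 0) : ∃ m > 0, ∀ x y, g x y ≤ -m := by
  obtain ⟨q, -, hq⟩ := (isCompact_Icc (a := ((0, 0) : ℝ × ℝ)) (b := (1, 1))).exists_isMaxOn
    ⟨(0, 0), ⟨⟨le_rfl, le_rfl⟩, ⟨zero_le_one, zero_le_one⟩⟩⟩ hc.continuousOn
  refine ⟨-g q.1 q.2, by have := hneg q.1 q.2; linarith, fun x y => ?_⟩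
  rw [per_fract hx hy, neg_neg]
  exact hq (⟨⟨Int.fract_nonneg _, Int.fract_nonneg _⟩,
    ⟨(Int.fract_lt_one _).le, (Int.fract_lt_one _).le⟩⟩ :
      ((Int.fract x, Int.fract y) : ℝ × ℝ) ∈ Icc ((0, 0) : ℝ × ℝ) (1, 1))

lemma lip_per {g : ℝ → ℝ → ℝ} (hc : ContDiff ℝ 1 (fun q : ℝ × ℝ => g q.1 q.2))
    (hx : ∀ x y, g (x + 1) y = g x y) (hy : ∀ x y, g x (y + 1) = g x y) :
    ∃ K, LipschitzWith K (fun q : ℝ × ℝ => g q.1 q.2) := by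
  set F : ℝ × ℝ → ℝ := fun q => g q.1 q.2 with hF
  have p1 : ∀ x y : ℝ, fderiv ℝ F (x + 1, y) = fderiv ℝ F (x, y) := by
    intro x y
    have e : (fun q : ℝ × ℝ => F (q + (1, 0))) = F := by
      funext q
      simp only [F, Prod.fst_add, Prod.snd_add, add_zero]
      exact hx _ _
    have h := fderiv_comp_add_right (𝕜 := ℝ) (f := F) (x := (x, y)) ((1, 0) : ℝ × ℝ)
    rw [e] at h
    rw [h]
    simp
  have p2 : ∀ x y : ℝ, fderiv ℝ F (x, y + 1) = fderiv ℝ F (x, y) := by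
    intro x y
    have e : (fun q : ℝ × ℝ => F (q + (0, 1))) = F := by
      funext q
      simp only [F, Prod.fst_add, Prod.snd_add, add_zero]
      exact hy _ _
    have h := fderiv_comp_add_right (𝕜 := ℝ) (f := F) (x := (x, y)) ((0, 1) : ℝ × ℝ)
    rw [e] at h
    rw [h]
    simp
  obtain ⟨M, hM0, hM⟩ := bdd_per (g := fun x y => ‖fderiv ℝ F (x, y)‖)
    (by
      have h := (hc.continuous_fderiv one_ne_zero).norm
      exact h)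
    (fun x y => by simp only [p1]) (fun x y => by simp only [p2])
  refine ⟨⟨M, hM0⟩, lipschitzWith_of_nnnorm_fderiv_le (𝕜 := ℝ) (hc.differentiable one_ne_zero) ?_⟩
  intro q
  have h := hM q.1 q.2
  rw [abs_of_nonneg (norm_nonneg _)] at h
  exact h

lemma ptwise {a b m11 m12 m22 z1 z2 N C d μ m Nm Zm : ℝ} (hN : N ^ 2 = n2 a b) (hN0 : 0 < N)
    (hC : C = (m11 + m22) - (a ^ 2 * m11 + 2 * a * b * m12 + b ^ 2 * m22) / n2 a b)
    (hE : EE a b m11 m12 m22 z1 z2 ≤ -m) (hm : 0 < m) (hNm : N ≤ Nm) (hZ : z1 ^ 2 + z2 ^ 2 ≤ Zm)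
    (hd : 0 < d) (hμ : 0 < μ) (h1 : 2 * Nm ^ 2 * μ ≤ m) (h2 : d * Nm * Zm ≤ m)
    (h3 : 0 ≤ N - d * C - d * μ) :
    √((a + d * z1) ^ 2 + (b + d * z2) ^ 2 + (4 / 5) ^ 2) ≤ N - d * C - d * μ := by
  rw [Real.sqrt_le_left h3]
  have hN2 : n2 a b ≠ 0 := by rw [← hN]; positivity
  have hsq : √(n2 a b) = N := by rw [← hN]; exact Real.sqrt_sq hN0.le
  set t := a * z1 + b * z2 + N * C with ht
  have e1 : EE a b m11 m12 m22 z1 z2 = N * t := by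
    unfold EE
    rw [hsq, ht, hC, ← hN]
    field_simp
  rw [e1] at hE
  have ht0 : t < 0 := by
    by_contra hcon
    push Not at hcon
    have : 0 ≤ N * t := by positivity
    linarith
  have e2 : Nm * t ≤ -m := by nlinarith
  have hNmpos : 0 < Nm := lt_of_lt_of_le hN0 hNm
  have e3 : 2 * t + 2 * N * μ + d * (z1 ^ 2 + z2 ^ 2) ≤ 0 := by
    by_contra hcon
    push Not at hcon
    have k1 : 0 < Nm * (2 * t + 2 * N * μ + d * (z1 ^ 2 + z2 ^ 2)) := by positivity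
    have k2 : Nm * N * μ ≤ Nm ^ 2 * μ := by
      have : Nm * N ≤ Nm ^ 2 := by nlinarith
      exact mul_le_mul_of_nonneg_right this hμ.le
    have k3 : d * Nm * (z1 ^ 2 + z2 ^ 2) ≤ d * Nm * Zm :=
      mul_le_mul_of_nonneg_left hZ (by positivity)
    nlinarith
  have e4 : n2 a b = a ^ 2 + b ^ 2 + (4 / 5) ^ 2 := rfl
  have e5 : (a + d * z1) ^ 2 + (b + d * z2) ^ 2 + (4 / 5) ^ 2 =
      N ^ 2 + 2 * d * (a * z1 + b * z2) + d ^ 2 * (z1 ^ 2 + z2 ^ 2) := by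
    rw [hN, e4]; ring
  rw [e5]
  have e6 : (N - d * C - d * μ) ^ 2 - (N ^ 2 + 2 * d * (a * z1 + b * z2) +
      d ^ 2 * (z1 ^ 2 + z2 ^ 2)) = d * (-(2 * t + 2 * N * μ + d * (z1 ^ 2 + z2 ^ 2))) +
        d ^ 2 * (C + μ) ^ 2 := by
    rw [ht]; ring
  have e7 : 0 ≤ d * (-(2 * t + 2 * N * μ + d * (z1 ^ 2 + z2 ^ 2))) :=
    mul_nonneg hd.le (by linarith)
  have e8 : 0 ≤ d ^ 2 * (C + μ) ^ 2 := by positivity
  linarith

section hops

variable {d A p₁ p₂ p₃ M : ℝ} {f v v1 v2 v11 v12 v22 : ℝ → ℝ → ℝ}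

/-- the operator on the penalised barriers is close to the operator on the barrier -/
lemma hop_gen (hp : p₃ ≠ 0) (hJ : Jet v v1 v2 v11 v12 v22)
    (ha : ∀ x y, |p₁ + v1 x y| ≤ M) (hb : ∀ x y, |p₂ + v2 x y| ≤ M) (h11 : ∀ x y, |v11 x y| ≤ M)
    (h12 : ∀ x y, |v12 x y| ≤ M) (h22 : ∀ x y, |v22 x y| ≤ M) (hf : ∀ x y, |f x y| ≤ M)
    (η : ℝ) (hη : 0 < η) : ∃ ε0 > 0, ∀ ε, |ε| < ε0 → ∀ (h : ℝ → ℝ) (x y z t : ℝ),
      nrm (bar p₁ p₂ p₃ v h ε) x y z t ≠ 0 ∧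
      |(max (1 - d * curv (bar p₁ p₂ p₃ v h ε) x y z t) 0 *
        nrm (bar p₁ p₂ p₃ v h ε) x y z t + A * f x y * d3 (bar p₁ p₂ p₃ v h ε) x y z t) -
        (Ff d (p₁ + v1 x y) (p₂ + v2 x y) p₃ (v11 x y) (v12 x y) (v22 x y) 0 +
          A * f x y * p₃)| ≤ η := by
  obtain ⟨ε0, hε0, hmain⟩ := unif d A p₃ M hp η hη
  refine ⟨ε0, hε0, fun ε hε h x y z t => ?_⟩
  obtain ⟨k1, k2⟩ := hmain ε hε (p₁ + v1 x y) (p₂ + v2 x y) (v11 x y) (v12 x y) (v22 x y) (f x y)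
    (bp x) (bp y) (bp z) (bq x) (bq y) (bq z) (ha x y) (hb x y) (h11 x y) (h12 x y) (h22 x y)
    (hf x y) (abs_bp_le x) (abs_bp_le y) (abs_bp_le z) (abs_bq_le x) (abs_bq_le y) (abs_bq_le z)
  rw [curv_bar hJ k1, nrm_bar hJ.h1 hJ.h2, d3_bar]
  simp only
  have hpos : 0 < (p₁ + v1 x y + ε * bp x) ^ 2 + (p₂ + v2 x y + ε * bp y) ^ 2 +
      (p₃ + ε * bp z) ^ 2 := by positivity
  refine ⟨(Real.sqrt_pos.2 hpos).ne', ?_⟩
  rw [Ff_eq _ _ _ _ _ _ _ _ k1]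
  exact k2

/-- the same for `d = 0`, where only first derivatives matter -/
lemma hop_zero (hp : p₃ ≠ 0) (h1 : ∀ x y, HasDerivAt (fun s => v s y) (v1 x y) x)
    (h2 : ∀ x y, HasDerivAt (fun s => v x s) (v2 x y) y)
    (ha : ∀ x y, |p₁ + v1 x y| ≤ M) (hb : ∀ x y, |p₂ + v2 x y| ≤ M) (hf : ∀ x y, |f x y| ≤ M)
    (η : ℝ) (hη : 0 < η) : ∃ ε0 > 0, ∀ ε, |ε| < ε0 → ∀ (h : ℝ → ℝ) (x y z t : ℝ),
      nrm (bar p₁ p₂ p₃ v h ε) x y z t ≠ 0 ∧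
      |(max (1 - 0 * curv (bar p₁ p₂ p₃ v h ε) x y z t) 0 *
        nrm (bar p₁ p₂ p₃ v h ε) x y z t + A * f x y * d3 (bar p₁ p₂ p₃ v h ε) x y z t) -
        (√((p₁ + v1 x y) ^ 2 + (p₂ + v2 x y) ^ 2 + p₃ ^ 2) + A * f x y * p₃)| ≤ η := by
  obtain ⟨ε0, hε0, hmain⟩ := unif 0 A p₃ M hp η hη
  refine ⟨ε0, hε0, fun ε hε h x y z t => ?_⟩
  have hM : (0 : ℝ) ≤ M := (abs_nonneg _).trans (hf x y)
  obtain ⟨k1, k2⟩ := hmain ε hε (p₁ + v1 x y) (p₂ + v2 x y) 0 0 0 (f x y)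
    (bp x) (bp y) (bp z) 0 0 0 (ha x y) (hb x y) (by simpa using hM) (by simpa using hM)
    (by simpa using hM)
    (hf x y) (abs_bp_le x) (abs_bp_le y) (abs_bp_le z) (by simp) (by simp) (by simp)
  rw [nrm_bar h1 h2, d3_bar]
  simp only
  have hpos : 0 < (p₁ + v1 x y + ε * bp x) ^ 2 + (p₂ + v2 x y + ε * bp y) ^ 2 +
      (p₃ + ε * bp z) ^ 2 := by positivity
  refine ⟨(Real.sqrt_pos.2 hpos).ne', ?_⟩
  unfold Ff at k2
  simp only [zero_mul, sub_zero] at k2 ⊢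
  rw [max_eq_left (Real.sqrt_nonneg _), max_eq_left (Real.sqrt_nonneg _)] at k2
  rw [max_eq_left zero_le_one, one_mul]
  exact k2

end hops

end Pool.Agent.U574.FS
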