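import Mathlib

set_option autoImplicit false

/-!
The algebraic core: an expansion in a small parameter `e`. The variables `s c` stand for the sine and
cosine of the first angle, `r q` for the sine and cosine of the second angle, `S C` for the sine and
cosine of the double of the second angle.
-/

namespace Pool.Agent.U574.FS

section atoms

variable (s c r q S C : ℝ)

/-- `∂₁ u`, `u = cos θ₁ cos 2θ₂ + sin θ₁` -/
def u1 : ℝ := -(s * C) + c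
/-- `∂₂ u` -/
def u2 : ℝ := -(2 * c * S)
/-- `∂₁₁ u` -/
def u11 : ℝ := -(c * C) - s
/-- `∂₁₂ u` -/
def u12 : ℝ := 2 * s * S
/-- `∂₂₂ u` -/
def u22 : ℝ := -(4 * c * C)
/-- `b'`, `b = -(3/5) cos θ₂ + (5/6) cos 2θ₂` -/
noncomputable def b1 : ℝ := 3 / 5 * r - 5 / 3 * S
/-- `b''` -/
noncomputable def b2 : ℝ := 3 / 5 * q - 10 / 3 * C
/-- `a'`, `a = 4 cos θ₂` -/
def a1 : ℝ := -(4 * r)
/-- the first corrector `y₁` -/
noncomputable def y1 : ℝ := -(5 / 3) * (8 * s * r * S - 116 / 25 * s * C + 16 / 25 * c)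
/-- `∂₁ y₁` -/
noncomputable def y11 : ℝ := -(5 / 3) * (8 * c * r * S - 116 / 25 * c * C - 16 / 25 * s)
/-- `∂₂ y₁` -/
noncomputable def y12 : ℝ := -(5 / 3) * (8 * s * (q * S + 2 * r * C) + 232 / 25 * s * S)
/-- auxiliary -/
noncomputable def A1 : ℝ := -(40 / 3) * r * S + 2144 / 375 * C
/-- auxiliary -/
noncomputable def dA1 : ℝ := -(40 / 3) * (q * S + 2 * r * C) - 4288 / 375 * S
/-- auxiliary -/
noncomputable def gg : ℝ := -(5 / 3) * (8 * (q * S + 2 * r * C) + 232 / 25 * S)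
/-- auxiliary -/
noncomputable def dgg : ℝ := -(5 / 3) * (8 * (4 * q * C - 5 * r * S) + 464 / 25 * C)
/-- auxiliary: `(P - R) / 2` -/
noncomputable def PR : ℝ := (A1 r S C + 544 / 375 * C) / 2
/-- auxiliary -/
noncomputable def dPR : ℝ := (dA1 r q S C - 1088 / 375 * S) / 2
/-- auxiliary -/
noncomputable def QQ : ℝ := 544 / 375 - C * A1 r S C - 2 * gg r q S C * S + 24 / 5 * S ^ 2
/-- auxiliary -/
noncomputable def dQQ : ℝ := 2 * S * A1 r S C - C * dA1 r q S C - 2 * dgg r q S C * S -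
  4 * gg r q S C * C + 96 / 5 * S * C
/-- the second corrector `y₂` -/
noncomputable def y2 : ℝ := -(5 / 3) * (PR r S C * (s * c) + QQ r q S C / 2 * s ^ 2)
/-- `∂₁ y₂` -/
noncomputable def y21 : ℝ := -(5 / 3) * (PR r S C * (c ^ 2 - s ^ 2) + QQ r q S C * (s * c))
/-- `∂₂ y₂` -/
noncomputable def y22 : ℝ := -(5 / 3) * (dPR r q S C * (s * c) + dQQ r q S C / 2 * s ^ 2)

end atoms

/-- `|Dw|²` from the first derivatives -/
noncomputable def n2 (a b : ℝ) : ℝ := a ^ 2 + b ^ 2 + (4 / 5) ^ 2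

/-- the expression which has to be negative -/
noncomputable def EE (a b m11 m12 m22 z1 z2 : ℝ) : ℝ :=
  √(n2 a b) * (a * z1 + b * z2) + ((m11 + m22) * n2 a b -
    (a ^ 2 * m11 + 2 * a * b * m12 + b ^ 2 * m22))

/-- the same for our functions -/
noncomputable def Et (e s c r q S C : ℝ) : ℝ :=
  EE (3 / 5 + e * u1 s c C) (e * u2 c S + e ^ 2 * b1 r S) (e * u11 s c C) (e * u12 s S)
    (e * u22 c C + e ^ 2 * b2 q C) (e * y11 s c r S C + e ^ 2 * y21 s c r q S C)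
    (a1 r + e * y12 s r q S C + e ^ 2 * y22 s c r q S C)

/-- general expansion -/
noncomputable def Wg (e u1 u2 u11 u12 u22 b1 b2 a1 y11 y12 y21 y22 N : ℝ) : ℝ :=
  ((u1 * y21 + u2 * y22 + b1 * y12) + e * (b1 * y22) + 3 / 5 * u1 * ((3 / 5 * y21 + u1 * y11 +
    u2 * y12 + b1 * a1) + e * (u1 * y21 + u2 * y22 + b1 * y12) + e ^ 2 * (b1 * y22))) +
  ((u11 + u22) * (u1 ^ 2 + (u2 + e * b1) ^ 2) + 2 * (3 / 5) * u1 * b2 +
    e * b2 * (u1 ^ 2 + (u2 + e * b1) ^ 2) - (u1 ^ 2 * u11 + 2 * (3 / 5) * b1 * u12 +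
      2 * u1 * (u2 + e * b1) * u12 + (u2 + e * b1) ^ 2 * (u22 + e * b2))) +
  ((u1 ^ 2 + (u2 + e * b1) ^ 2) / (N + 1) - (6 / 5 * u1) * (6 / 5 * u1 + e * (u1 ^ 2 +
    (u2 + e * b1) ^ 2)) / (2 * (N + 1) ^ 2)) *
    ((3 / 5 * y11 + u2 * a1) + e * (3 / 5 * y21 + u1 * y11 + u2 * y12 + b1 * a1) +
      e ^ 2 * (u1 * y21 + u2 * y22 + b1 * y12) + e ^ 3 * (b1 * y22))

lemma expansion (e u1 u2 u11 u12 u22 b1 b2 a1 y11 y12 y21 y22 : ℝ) :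
    EE (3 / 5 + e * u1) (e * u2 + e ^ 2 * b1) (e * u11) (e * u12)
      (e * u22 + e ^ 2 * b2) (e * y11 + e ^ 2 * y21) (a1 + e * y12 + e ^ 2 * y22) =
    e * ((3 / 5 * y11 + u2 * a1) + (16 / 25 * u11 + u22)) +
    e ^ 2 * ((3 / 5 * y21 + u1 * y11 + u2 * y12 + b1 * a1) + 3 / 5 * u1 * (3 / 5 * y11 + u2 * a1) +
      (b2 + 6 / 5 * u1 * (u11 + u22) - 6 / 5 * u1 * u11 - 6 / 5 * u2 * u12)) +
    e ^ 3 * Wg e u1 u2 u11 u12 u22 b1 b2 a1 y11 y12 y21 y22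
      (√(n2 (3 / 5 + e * u1) (e * u2 + e ^ 2 * b1))) := by
  have hpos : 0 ≤ n2 (3 / 5 + e * u1) (e * u2 + e ^ 2 * b1) := by unfold n2; positivity
  have hN := Real.sq_sqrt hpos
  have hN0 := Real.sqrt_nonneg (n2 (3 / 5 + e * u1) (e * u2 + e ^ 2 * b1))
  unfold EE
  set N := √(n2 (3 / 5 + e * u1) (e * u2 + e ^ 2 * b1)) with hNd
  have hN1 : N + 1 ≠ 0 := by positivity
  have hN2 : N ^ 2 = 1 + e * (6 / 5 * u1 + e * (u1 ^ 2 + (u2 + e * b1) ^ 2)) := by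
    rw [hN]; unfold n2; ring
  have hρ : N - 1 - 3 / 5 * e * u1 = e ^ 2 * ((u1 ^ 2 + (u2 + e * b1) ^ 2) / (N + 1) -
      (6 / 5 * u1) * (6 / 5 * u1 + e * (u1 ^ 2 + (u2 + e * b1) ^ 2)) / (2 * (N + 1) ^ 2)) := by
    have h0 : (N - 1 - 3 / 5 * e * u1) * (2 * (N + 1) ^ 2) = e ^ 2 * (2 * (u1 ^ 2 +
        (u2 + e * b1) ^ 2) * (N + 1) - (6 / 5 * u1) * (6 / 5 * u1 + e * (u1 ^ 2 +
          (u2 + e * b1) ^ 2))) := by
      linear_combination (2 * (N + 1) - 6 / 5 * e * u1) * hN2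
    have h1 : N - 1 - 3 / 5 * e * u1 =
        (N - 1 - 3 / 5 * e * u1) * (2 * (N + 1) ^ 2) / (2 * (N + 1) ^ 2) := by
      rw [mul_div_assoc, div_self (by positivity), mul_one]
    rw [h1, h0]
    have h2 : (u1 ^ 2 + (u2 + e * b1) ^ 2) / (N + 1) =
        2 * (u1 ^ 2 + (u2 + e * b1) ^ 2) * (N + 1) / (2 * (N + 1) ^ 2) := by
      field_simp
    rw [h2]
    ring
  have hN3 : N = 1 + 3 / 5 * e * u1 + e ^ 2 * ((u1 ^ 2 + (u2 + e * b1) ^ 2) / (N + 1) -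
      (6 / 5 * u1) * (6 / 5 * u1 + e * (u1 ^ 2 + (u2 + e * b1) ^ 2)) / (2 * (N + 1) ^ 2)) := by
    linear_combination hρ
  unfold Wg
  set ρ' := ((u1 ^ 2 + (u2 + e * b1) ^ 2) / (N + 1) -
      (6 / 5 * u1) * (6 / 5 * u1 + e * (u1 ^ 2 + (u2 + e * b1) ^ 2)) / (2 * (N + 1) ^ 2)) with hρ'
  have e1 : N * ((3 / 5 + e * u1) * (e * y11 + e ^ 2 * y21) + (e * u2 + e ^ 2 * b1) *
      (a1 + e * y12 + e ^ 2 * y22)) = (1 + 3 / 5 * e * u1 + e ^ 2 * ρ') *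
      ((3 / 5 + e * u1) * (e * y11 + e ^ 2 * y21) + (e * u2 + e ^ 2 * b1) *
      (a1 + e * y12 + e ^ 2 * y22)) := by
    rw [← hN3]
  rw [e1]
  unfold n2
  ring

lemma l1_zero (s c r S C : ℝ) :
    (3 / 5 * y11 s c r S C + u2 c S * a1 r) + (16 / 25 * u11 s c C + u22 c C) = 0 := by
  unfold y11 u2 a1 u11 u22
  ring

lemma l2_avg (s c r q S C : ℝ) (h1 : s ^ 2 + c ^ 2 = 1) (h2 : C = 1 - 2 * r ^ 2) :
    (3 / 5 * y21 s c r q S C + u1 s c C * y11 s c r S C + u2 c S * y12 s r q S C + b1 r S * a1 r) +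
      3 / 5 * u1 s c C * (3 / 5 * y11 s c r S C + u2 c S * a1 r) +
      (b2 q C + 6 / 5 * u1 s c C * (u11 s c C + u22 c C) - 6 / 5 * u1 s c C * u11 s c C -
        6 / 5 * u2 c S * u12 s S) = -(6 / 5) + 3 / 5 * q := by
  unfold y21 u1 y11 u2 y12 b1 a1 b2 u11 u22 u12 PR QQ A1 gg
  linear_combination ((-(40 / 3) * r * S + 2144 / 375 * C - 544 / 375 * C) / 2) * h1 +
    (-(6 / 5)) * h2

/-- the remainder -/
noncomputable def Wt (e s c r q S C : ℝ) : ℝ :=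
  Wg e (u1 s c C) (u2 c S) (u11 s c C) (u12 s S) (u22 c C) (b1 r S) (b2 q C) (a1 r)
    (y11 s c r S C) (y12 s r q S C) (y21 s c r q S C) (y22 s c r q S C)
      (√(n2 (3 / 5 + e * u1 s c C) (e * u2 c S + e ^ 2 * b1 r S)))

lemma Et_eq (e s c r q S C : ℝ) (h1 : s ^ 2 + c ^ 2 = 1) (h2 : C = 1 - 2 * r ^ 2) :
    Et e s c r q S C = e ^ 2 * (-(6 / 5) + 3 / 5 * q) + e ^ 3 * Wt e s c r q S C := by
  unfold Et Wt
  rw [expansion, l1_zero, l2_avg s c r q S C h1 h2]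
  ring

lemma continuous_Wt : Continuous fun p : ℝ × ℝ × ℝ × ℝ × ℝ × ℝ × ℝ =>
    Wt p.1 p.2.1 p.2.2.1 p.2.2.2.1 p.2.2.2.2.1 p.2.2.2.2.2.1 p.2.2.2.2.2.2 := by
  have e : (fun p : ℝ × ℝ × ℝ × ℝ × ℝ × ℝ × ℝ =>
    Wt p.1 p.2.1 p.2.2.1 p.2.2.2.1 p.2.2.2.2.1 p.2.2.2.2.2.1 p.2.2.2.2.2.2) =
    fun p : ℝ × ℝ × ℝ × ℝ × ℝ × ℝ × ℝ => Wt p.1 p.2.1 p.2.2.1 p.2.2.2.1 p.2.2.2.2.1
      p.2.2.2.2.2.1 p.2.2.2.2.2.2 := rfl
  unfold Wt Wg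
  have hN : Continuous fun p : ℝ × ℝ × ℝ × ℝ × ℝ × ℝ × ℝ =>
      √(n2 (3 / 5 + p.1 * u1 p.2.1 p.2.2.1 p.2.2.2.2.2.2) (p.1 * u2 p.2.2.1 p.2.2.2.2.2.1 +
        p.1 ^ 2 * b1 p.2.2.2.1 p.2.2.2.2.2.1)) := by
    unfold n2 u1 u2 b1
    fun_prop
  have hN1 : ∀ p : ℝ × ℝ × ℝ × ℝ × ℝ × ℝ × ℝ,
      √(n2 (3 / 5 + p.1 * u1 p.2.1 p.2.2.1 p.2.2.2.2.2.2) (p.1 * u2 p.2.2.1 p.2.2.2.2.2.1 +
        p.1 ^ 2 * b1 p.2.2.2.1 p.2.2.2.2.2.1)) + 1 ≠ 0 := by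
    intro p
    have := Real.sqrt_nonneg (n2 (3 / 5 + p.1 * u1 p.2.1 p.2.2.1 p.2.2.2.2.2.2)
      (p.1 * u2 p.2.2.1 p.2.2.2.2.2.1 + p.1 ^ 2 * b1 p.2.2.2.1 p.2.2.2.2.2.1))
    positivity
  refine Continuous.add (Continuous.add ?_ ?_) (Continuous.mul (Continuous.sub
    (Continuous.div ?_ (hN.add continuous_const) hN1)
    (Continuous.div ?_ (continuous_const.mul ((hN.add continuous_const).pow 2)) ?_)) ?_)
  · unfold u1 u2 b1 a1 y11 y12 y21 y22 PR dPR QQ dQQ A1 dA1 gg dgg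
    fun_prop
  · unfold u1 u2 b1 b2 u11 u22 u12
    fun_prop
  · unfold u1 u2 b1
    fun_prop
  · unfold u1 u2 b1
    fun_prop
  · intro p
    exact mul_ne_zero two_ne_zero (pow_ne_zero 2 (hN1 p))
  · unfold u1 u2 b1 a1 y11 y12 y21 y22 PR dPR QQ dQQ A1 dA1 gg dgg
    fun_prop

theorem core : ∃ e : ℝ, 0 < e ∧ e < 1 / 10 ∧ ∀ s c r q S C : ℝ, |s| ≤ 1 → |c| ≤ 1 → |r| ≤ 1 →
    |q| ≤ 1 → |S| ≤ 1 → |C| ≤ 1 → s ^ 2 + c ^ 2 = 1 → C = 1 - 2 * r ^ 2 →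
    Et e s c r q S C < 0 := by
  have hK : IsCompact (Set.Icc ((0, -1, -1, -1, -1, -1, -1) : ℝ × ℝ × ℝ × ℝ × ℝ × ℝ × ℝ)
    (1, 1, 1, 1, 1, 1, 1)) := isCompact_Icc
  obtain ⟨B, hB⟩ := hK.exists_bound_of_continuousOn continuous_Wt.continuousOn
  have hB0 : 0 ≤ |B| := abs_nonneg B
  refine ⟨min (1 / 20) (3 / (10 * (|B| + 1))), by positivity, ?_, ?_⟩
  · exact lt_of_le_of_lt (min_le_left _ _) (by norm_num)
  intro s c r q S C hs hc hr hq hS hC h1 h2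
  set e := min (1 / 20) (3 / (10 * (|B| + 1))) with he
  have he0 : 0 < e := by positivity
  have he1 : e ≤ 1 := (min_le_left _ _).trans (by norm_num)
  have he2 : e * (|B| + 1) ≤ 3 / 10 := by
    have h3 : e ≤ 3 / (10 * (|B| + 1)) := min_le_right _ _
    have h4 := (le_div_iff₀ (by positivity)).1 h3
    linarith
  rw [Et_eq e s c r q S C h1 h2]
  have hb := hB (e, s, c, r, q, S, C) ⟨⟨he0.le, (abs_le.1 hs).1, (abs_le.1 hc).1, (abs_le.1 hr).1,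
    (abs_le.1 hq).1, (abs_le.1 hS).1, (abs_le.1 hC).1⟩, ⟨he1, (abs_le.1 hs).2, (abs_le.1 hc).2,
    (abs_le.1 hr).2, (abs_le.1 hq).2, (abs_le.1 hS).2, (abs_le.1 hC).2⟩⟩
  rw [Real.norm_eq_abs] at hb
  simp only at hb
  have hb2 : Wt e s c r q S C ≤ |B| := (le_abs_self _).trans (hb.trans (le_abs_self B))
  have hq2 := (abs_le.1 hq).2
  have e3 : e * Wt e s c r q S C ≤ 3 / 10 := by nlinarith
  have e4 : -(6 / 5) + 3 / 5 * q + e * Wt e s c r q S C ≤ -(3 / 10) := by linarith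
  have e5 : e ^ 2 * (-(6 / 5) + 3 / 5 * q) + e ^ 3 * Wt e s c r q S C =
      e ^ 2 * (-(6 / 5) + 3 / 5 * q + e * Wt e s c r q S C) := by ring
  rw [e5]
  have e6 : 0 < e ^ 2 := by positivity
  nlinarith

end Pool.Agent.U574.FS
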