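import Pool.Agent.U574.FS.Visc

set_option autoImplicit false

/-!
The operator on the barriers.
-/

namespace Pool.Agent.U574.FS

open Set Filter Topology

/-- `x / √(1 + x²)` -/
noncomputable def bp (x : ℝ) : ℝ := x / bt x
/-- `1 / √(1 + x²)³` -/
noncomputable def bq (x : ℝ) : ℝ := 1 / bt x ^ 3

lemma one_le_bt (x : ℝ) : 1 ≤ bt x := by
  unfold bt
  rw [Real.one_le_sqrt]
  nlinarith [sq_nonneg x]

lemma hasDerivAt_bt (x : ℝ) : HasDerivAt bt (bp x) x := by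
  have h1 : HasDerivAt (fun s : ℝ => 1 + s ^ 2) (2 * x) x := by
    have := ((hasDerivAt_pow 2 x).const_add 1)
    simpa using this
  have h2 := h1.sqrt (by positivity)
  have e : bt = fun y => √(1 + y ^ 2) := rfl
  rw [e]
  refine h2.congr_deriv ?_
  unfold bp bt
  field_simp

lemma hasDerivAt_bp (x : ℝ) : HasDerivAt bp (bq x) x := by
  have h := (hasDerivAt_id x).div (hasDerivAt_bt x) (bt_pos x).ne'
  refine h.congr_deriv ?_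
  have h1 := bt_sq x
  have h2 := (bt_pos x).ne'
  unfold bq bp
  simp only [id]
  field_simp
  linarith

lemma abs_bp_le (x : ℝ) : |bp x| ≤ 1 := by
  unfold bp
  rw [abs_div, abs_of_pos (bt_pos x), div_le_one (bt_pos x)]
  exact abs_le_bt x

lemma abs_bq_le (x : ℝ) : |bq x| ≤ 1 := by
  have h := one_le_bt x
  have h3 : (1 : ℝ) ≤ bt x ^ 3 := one_le_pow₀ h
  unfold bq
  rw [abs_of_nonneg (by positivity), div_le_one (by positivity)]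
  exact h3

/-- the derivatives of `v` -/
structure Jet (v v1 v2 v11 v12 v22 : ℝ → ℝ → ℝ) : Prop where
  h1 : ∀ x y, HasDerivAt (fun s => v s y) (v1 x y) x
  h2 : ∀ x y, HasDerivAt (fun s => v x s) (v2 x y) y
  h11 : ∀ x y, HasDerivAt (fun s => v1 s y) (v11 x y) x
  h12 : ∀ x y, HasDerivAt (fun s => v1 x s) (v12 x y) y
  h21 : ∀ x y, HasDerivAt (fun s => v2 s y) (v12 x y) x
  h22 : ∀ x y, HasDerivAt (fun s => v2 x s) (v22 x y) y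

section formulas

variable {p₁ p₂ p₃ : ℝ} {v v1 v2 v11 v12 v22 : ℝ → ℝ → ℝ} {h : ℝ → ℝ} {ε : ℝ}

lemma d1_bar (h1 : ∀ x y, HasDerivAt (fun s => v s y) (v1 x y) x) :
    d1 (bar p₁ p₂ p₃ v h ε) = fun x y _ _ => p₁ + v1 x y + ε * bp x := by
  funext x y z t
  unfold d1 bar
  have e1 : HasDerivAt (fun s => p₁ * s + p₂ * y + p₃ * z + v s y + h t +
      ε * (bt s + bt y + bt z)) (p₁ * 1 + v1 x y + ε * bp x) x := by
    exact (((((hasDerivAt_id x).const_mul p₁).add_const _).add_const _).add (h1 x y)).add_const _ |>.add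
      ((((hasDerivAt_bt x).add_const _).add_const _).const_mul ε)
  rw [e1.deriv, mul_one]

lemma d2_bar (h2 : ∀ x y, HasDerivAt (fun s => v x s) (v2 x y) y) :
    d2 (bar p₁ p₂ p₃ v h ε) = fun x y _ _ => p₂ + v2 x y + ε * bp y := by
  funext x y z t
  unfold d2 bar
  have e1 : HasDerivAt (fun s => p₁ * x + p₂ * s + p₃ * z + v x s + h t +
      ε * (bt x + bt s + bt z)) (p₂ * 1 + v2 x y + ε * bp y) y := by
    exact (((((hasDerivAt_id y).const_mul p₂).const_add _).add_const _).add (h2 x y)).add_const _ |>.add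
      ((((hasDerivAt_bt y).const_add _).add_const _).const_mul ε)
  rw [e1.deriv, mul_one]

lemma d3_bar : d3 (bar p₁ p₂ p₃ v h ε) = fun _ _ z _ => p₃ + ε * bp z := by
  funext x y z t
  unfold d3 bar
  have e1 : HasDerivAt (fun s => p₁ * x + p₂ * y + p₃ * s + v x y + h t +
      ε * (bt x + bt y + bt s)) (p₃ * 1 + ε * bp z) z := by
    exact ((((hasDerivAt_id z).const_mul p₃).const_add _).add_const _).add_const _ |>.add
      (((hasDerivAt_bt z).const_add _).const_mul ε)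
  rw [e1.deriv, mul_one]

lemma nrm_bar (h1 : ∀ x y, HasDerivAt (fun s => v s y) (v1 x y) x)
    (h2 : ∀ x y, HasDerivAt (fun s => v x s) (v2 x y) y) :
    nrm (bar p₁ p₂ p₃ v h ε) = fun x y z _ =>
      √((p₁ + v1 x y + ε * bp x) ^ 2 + (p₂ + v2 x y + ε * bp y) ^ 2 + (p₃ + ε * bp z) ^ 2) := by
  funext x y z t
  unfold nrm
  rw [d1_bar h1, d2_bar h2, d3_bar]

/-- derivative of `u / √(u² + g)`-type quotients -/
lemma hasDerivAt_quot {a b c : ℝ → ℝ} {a' b' c' s : ℝ} (ha : HasDerivAt a a' s)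
    (hb : HasDerivAt b b' s) (hc : HasDerivAt c c' s) (hN : a s ^ 2 + b s ^ 2 + c s ^ 2 ≠ 0)
    {g : ℝ → ℝ} {g' : ℝ} (hg : HasDerivAt g g' s) :
    HasDerivAt (fun r => g r / √(a r ^ 2 + b r ^ 2 + c r ^ 2))
      ((g' * (a s ^ 2 + b s ^ 2 + c s ^ 2) - g s * (a s * a' + b s * b' + c s * c')) /
        √(a s ^ 2 + b s ^ 2 + c s ^ 2) ^ 3) s := by
  have hpos : 0 < a s ^ 2 + b s ^ 2 + c s ^ 2 :=
    lt_of_le_of_ne (by positivity) (Ne.symm hN)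
  have e1 : HasDerivAt (fun r => a r ^ 2 + b r ^ 2 + c r ^ 2)
      (2 * (a s * a' + b s * b' + c s * c')) s := by
    have := ((ha.pow 2).add (hb.pow 2)).add (hc.pow 2)
    refine this.congr_deriv ?_
    norm_num
    ring
  have e2 := hg.div (e1.sqrt hN) (Real.sqrt_pos.2 hpos).ne'
  refine e2.congr_deriv ?_
  have e3 := Real.sq_sqrt hpos.le
  have e4 := Real.sqrt_pos.2 hpos
  set N := √(a s ^ 2 + b s ^ 2 + c s ^ 2) with hNdef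
  rw [← e3]
  field_simp

/-- the curvature in terms of the derivatives -/
noncomputable def Kf (a b c m11 m12 m22 m33 : ℝ) : ℝ :=
  ((m11 + m22 + m33) * (a ^ 2 + b ^ 2 + c ^ 2) -
    (a ^ 2 * m11 + 2 * a * b * m12 + b ^ 2 * m22 + c ^ 2 * m33)) / √(a ^ 2 + b ^ 2 + c ^ 2) ^ 3

lemma curv_bar (hJ : Jet v v1 v2 v11 v12 v22) {x y z t : ℝ} (hc : p₃ + ε * bp z ≠ 0) :
    curv (bar p₁ p₂ p₃ v h ε) x y z t =
      Kf (p₁ + v1 x y + ε * bp x) (p₂ + v2 x y + ε * bp y) (p₃ + ε * bp z)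
        (v11 x y + ε * bq x) (v12 x y) (v22 x y + ε * bq y) (ε * bq z) := by
  have hN : (p₁ + v1 x y + ε * bp x) ^ 2 + (p₂ + v2 x y + ε * bp y) ^ 2 + (p₃ + ε * bp z) ^ 2 ≠ 0 := by
    have : 0 < (p₃ + ε * bp z) ^ 2 := by positivity
    positivity
  unfold curv
  rw [d1_bar hJ.h1, d2_bar hJ.h2, d3_bar, nrm_bar hJ.h1 hJ.h2]
  have A1 : HasDerivAt (fun s => p₁ + v1 s y + ε * bp s) (v11 x y + ε * bq x) x :=
    ((hJ.h11 x y).const_add p₁).add ((hasDerivAt_bp x).const_mul ε)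
  have A2 : HasDerivAt (fun s => p₂ + v2 s y + ε * bp y) (v12 x y) x :=
    ((hJ.h21 x y).const_add p₂).add_const _
  have A3 : HasDerivAt (fun _ : ℝ => p₃ + ε * bp z) 0 x := hasDerivAt_const _ _
  have B1 : HasDerivAt (fun s => p₁ + v1 x s + ε * bp x) (v12 x y) y :=
    ((hJ.h12 x y).const_add p₁).add_const _
  have B2 : HasDerivAt (fun s => p₂ + v2 x s + ε * bp s) (v22 x y + ε * bq y) y :=
    ((hJ.h22 x y).const_add p₂).add ((hasDerivAt_bp y).const_mul ε)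
  have B3 : HasDerivAt (fun _ : ℝ => p₃ + ε * bp z) 0 y := hasDerivAt_const _ _
  have C1 : HasDerivAt (fun _ : ℝ => p₁ + v1 x y + ε * bp x) 0 z := hasDerivAt_const _ _
  have C2 : HasDerivAt (fun _ : ℝ => p₂ + v2 x y + ε * bp y) 0 z := hasDerivAt_const _ _
  have C3 : HasDerivAt (fun s => p₃ + ε * bp s) (ε * bq z) z :=
    ((hasDerivAt_bp z).const_mul ε).const_add p₃
  have D1 := (hasDerivAt_quot A1 A2 A3 hN A1).deriv
  have D2 := (hasDerivAt_quot B1 B2 B3 hN B2).deriv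
  have D3 := (hasDerivAt_quot C1 C2 C3 hN C3).deriv
  simp only [d1, d2, d3]
  rw [D1, D2, D3]
  unfold Kf
  rw [← add_div, ← add_div]
  congr 1
  ring

end formulas

/-- the spatial part of the operator in terms of the derivatives -/
noncomputable def Ff (d a b c m11 m12 m22 m33 : ℝ) : ℝ :=
  max (√(a ^ 2 + b ^ 2 + c ^ 2) - d * ((m11 + m22 + m33) -
    (a ^ 2 * m11 + 2 * a * b * m12 + b ^ 2 * m22 + c ^ 2 * m33) / (a ^ 2 + b ^ 2 + c ^ 2))) 0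

lemma Ff_eq (d a b c m11 m12 m22 m33 : ℝ) (hc : c ≠ 0) :
    max (1 - d * Kf a b c m11 m12 m22 m33) 0 * √(a ^ 2 + b ^ 2 + c ^ 2) =
      Ff d a b c m11 m12 m22 m33 := by
  have hpos : 0 < a ^ 2 + b ^ 2 + c ^ 2 := by positivity
  have h1 := Real.sqrt_pos.2 hpos
  have h2 := Real.sq_sqrt hpos.le
  unfold Ff Kf
  rw [max_mul_of_nonneg _ _ h1.le, zero_mul]
  congr 1
  set N := √(a ^ 2 + b ^ 2 + c ^ 2) with hN
  have h3 : a ^ 2 + b ^ 2 + c ^ 2 = N ^ 2 := h2.symm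
  rw [h3]
  field_simp

set_option maxRecDepth 100000 in
/-- uniform continuity -/
lemma unif (d A p₃ M : ℝ) (hp : p₃ ≠ 0) (η : ℝ) (hη : 0 < η) :
    ∃ ε0 > 0, ∀ ε, |ε| < ε0 → ∀ a b m11 m12 m22 F b1 b2 b3 q1 q2 q3 : ℝ,
      |a| ≤ M → |b| ≤ M → |m11| ≤ M → |m12| ≤ M → |m22| ≤ M → |F| ≤ M →
      |b1| ≤ 1 → |b2| ≤ 1 → |b3| ≤ 1 → |q1| ≤ 1 → |q2| ≤ 1 → |q3| ≤ 1 →
      p₃ + ε * b3 ≠ 0 ∧
      |(Ff d (a + ε * b1) (b + ε * b2) (p₃ + ε * b3) (m11 + ε * q1) m12 (m22 + ε * q2) (ε * q3) +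
        A * F * (p₃ + ε * b3)) - (Ff d a b p₃ m11 m12 m22 0 + A * F * p₃)| ≤ η := by
  let Θ : ℝ × ℝ × ℝ × ℝ × ℝ × ℝ × ℝ × ℝ × ℝ × ℝ × ℝ × ℝ × ℝ → ℝ :=
    fun ⟨ε, a, b, m11, m12, m22, F, b1, b2, b3, q1, q2, q3⟩ =>
      (Ff d (a + ε * b1) (b + ε * b2) (p₃ + ε * b3) (m11 + ε * q1) m12 (m22 + ε * q2) (ε * q3) +
        A * F * (p₃ + ε * b3))
  set ε1 := |p₃| / 2 with hε1
  have hp' : 0 < |p₃| := abs_pos.2 hp
  let lo : ℝ × ℝ × ℝ × ℝ × ℝ × ℝ × ℝ × ℝ × ℝ × ℝ × ℝ × ℝ × ℝ :=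
    ⟨-ε1, -M, -M, -M, -M, -M, -M, -1, -1, -1, -1, -1, -1⟩
  let hi : ℝ × ℝ × ℝ × ℝ × ℝ × ℝ × ℝ × ℝ × ℝ × ℝ × ℝ × ℝ × ℝ :=
    ⟨ε1, M, M, M, M, M, M, 1, 1, 1, 1, 1, 1⟩
  have hne : ∀ ε b3 : ℝ, |ε| ≤ ε1 → |b3| ≤ 1 → p₃ + ε * b3 ≠ 0 := by
    intro ε b3 h1 h2 h3
    have e1 : p₃ = -(ε * b3) := by linarith
    have e2 : |p₃| = |ε| * |b3| := by rw [e1, abs_neg, abs_mul]
    have e3 : |ε| * |b3| ≤ ε1 * 1 := mul_le_mul h1 h2 (abs_nonneg _) (by positivity)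
    linarith
  have hcont : ContinuousOn Θ (Icc lo hi) := by
    have key : ∀ q ∈ Icc lo hi, (q.2.1 + q.1 * q.2.2.2.2.2.2.2.1) ^ 2 +
        (q.2.2.1 + q.1 * q.2.2.2.2.2.2.2.2.1) ^ 2 + (p₃ + q.1 * q.2.2.2.2.2.2.2.2.2.1) ^ 2 ≠ 0 := by
      rintro ⟨ε, a, b, m11, m12, m22, F, b1, b2, b3, q1, q2, q3⟩ hq
      have h1 : |ε| ≤ ε1 := abs_le.2 ⟨hq.1.1, hq.2.1⟩
      have h2 : |b3| ≤ 1 := abs_le.2 ⟨hq.1.2.2.2.2.2.2.2.2.2.1, hq.2.2.2.2.2.2.2.2.2.2.1⟩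
      have h3 := hne ε b3 h1 h2
      simp only
      positivity
    have e : Θ = fun q : ℝ × ℝ × ℝ × ℝ × ℝ × ℝ × ℝ × ℝ × ℝ × ℝ × ℝ × ℝ × ℝ =>
      max (√((q.2.1 + q.1 * q.2.2.2.2.2.2.2.1) ^ 2 +
        (q.2.2.1 + q.1 * q.2.2.2.2.2.2.2.2.1) ^ 2 + (p₃ + q.1 * q.2.2.2.2.2.2.2.2.2.1) ^ 2) -
        d * (((q.2.2.2.1 + q.1 * q.2.2.2.2.2.2.2.2.2.2.1) +
          (q.2.2.2.2.2.1 + q.1 * q.2.2.2.2.2.2.2.2.2.2.2.1) + q.1 * q.2.2.2.2.2.2.2.2.2.2.2.2) -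
        ((q.2.1 + q.1 * q.2.2.2.2.2.2.2.1) ^ 2 * (q.2.2.2.1 + q.1 * q.2.2.2.2.2.2.2.2.2.2.1) +
          2 * (q.2.1 + q.1 * q.2.2.2.2.2.2.2.1) * (q.2.2.1 + q.1 * q.2.2.2.2.2.2.2.2.1) *
            q.2.2.2.2.1 + (q.2.2.1 + q.1 * q.2.2.2.2.2.2.2.2.1) ^ 2 *
          (q.2.2.2.2.2.1 + q.1 * q.2.2.2.2.2.2.2.2.2.2.2.1) +
          (p₃ + q.1 * q.2.2.2.2.2.2.2.2.2.1) ^ 2 * (q.1 * q.2.2.2.2.2.2.2.2.2.2.2.2)) /
        ((q.2.1 + q.1 * q.2.2.2.2.2.2.2.1) ^ 2 +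
        (q.2.2.1 + q.1 * q.2.2.2.2.2.2.2.2.1) ^ 2 + (p₃ + q.1 * q.2.2.2.2.2.2.2.2.2.1) ^ 2))) 0 +
        A * q.2.2.2.2.2.2.1 * (p₃ + q.1 * q.2.2.2.2.2.2.2.2.2.1) := by
      funext q
      rfl
    rw [e]
    refine ContinuousOn.add (ContinuousOn.sup (ContinuousOn.sub (Continuous.continuousOn ?_)
      (ContinuousOn.mul continuousOn_const (ContinuousOn.sub (Continuous.continuousOn ?_)
        (ContinuousOn.div (Continuous.continuousOn ?_) (Continuous.continuousOn ?_) key))))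
          continuousOn_const) (Continuous.continuousOn ?_)
    · fun_prop
    · fun_prop
    · fun_prop
    · fun_prop
    · fun_prop
  have huc := isCompact_Icc.uniformContinuousOn_of_continuous hcont
  rw [Metric.uniformContinuousOn_iff] at huc
  obtain ⟨δ, hδ, huc⟩ := huc η hη
  refine ⟨min ε1 δ, by positivity, ?_⟩
  intro ε hε a b m11 m12 m22 F b1 b2 b3 q1 q2 q3 ha hb h11 h12 h22 hF hb1 hb2 hb3 hq1 hq2 hq3
  have hε' : |ε| < ε1 := lt_of_lt_of_le hε (min_le_left _ _)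
  have hε'' : |ε| < δ := lt_of_lt_of_le hε (min_le_right _ _)
  refine ⟨hne ε b3 hε'.le hb3, ?_⟩
  have hmem : ∀ e : ℝ, |e| ≤ ε1 →
      ((e, a, b, m11, m12, m22, F, b1, b2, b3, q1, q2, q3) :
        ℝ × ℝ × ℝ × ℝ × ℝ × ℝ × ℝ × ℝ × ℝ × ℝ × ℝ × ℝ × ℝ) ∈ Icc lo hi := by
    intro e he
    refine ⟨⟨(abs_le.1 he).1, (abs_le.1 ha).1, (abs_le.1 hb).1, (abs_le.1 h11).1,
      (abs_le.1 h12).1, (abs_le.1 h22).1, (abs_le.1 hF).1, (abs_le.1 hb1).1, (abs_le.1 hb2).1,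
      (abs_le.1 hb3).1, (abs_le.1 hq1).1, (abs_le.1 hq2).1, (abs_le.1 hq3).1⟩,
      ⟨(abs_le.1 he).2, (abs_le.1 ha).2, (abs_le.1 hb).2, (abs_le.1 h11).2,
      (abs_le.1 h12).2, (abs_le.1 h22).2, (abs_le.1 hF).2, (abs_le.1 hb1).2, (abs_le.1 hb2).2,
      (abs_le.1 hb3).2, (abs_le.1 hq1).2, (abs_le.1 hq2).2, (abs_le.1 hq3).2⟩⟩
  have hdist := huc _ (hmem ε hε'.le) _ (hmem 0 (by rw [abs_zero]; positivity)) (by
    rw [Prod.dist_eq]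
    simp only [dist_self, Real.dist_eq, sub_zero]
    rw [max_eq_left (abs_nonneg _)]
    exact hε'')
  rw [Real.dist_eq] at hdist
  simp only [Θ, zero_mul, add_zero] at hdist
  exact hdist.le

end Pool.Agent.U574.FS
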