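import Pool.Agent.U574.FS.Asm

set_option autoImplicit false

/-!
The disproof.
-/

namespace Pool.Agent.U574.FS

open Set Filter Topology

/-- the quantity `C` with `(1 - d κ) |Dw| = |Dw| - d C` -/
noncomputable def Cc (a b m11 m12 m22 : ℝ) : ℝ :=
  (m11 + m22) - (a ^ 2 * m11 + 2 * a * b * m12 + b ^ 2 * m22) / n2 a b

lemma n2_pos (a b : ℝ) : 0 < n2 a b := by unfold n2; positivity

lemma le_sqrt_n2 (a b : ℝ) : 4 / 5 ≤ √(n2 a b) := by
  apply Real.le_sqrt_of_sq_le
  unfold n2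
  nlinarith [sq_nonneg a, sq_nonneg b]

section fns

variable (e : ℝ)

/-- `|Dw|` -/
noncomputable def Nf (x y : ℝ) : ℝ := √(n2 (3 / 5 + v1f e x y) (v2f e x y))
/-- `C` -/
noncomputable def Cf (x y : ℝ) : ℝ :=
  Cc (3 / 5 + v1f e x y) (v2f e x y) (v11f e x y) (v12f e x y) (v22f e x y)
/-- the shear profile -/
noncomputable def ff (d : ℝ) (x y : ℝ) : ℝ := 5 / 4 * (1 - (Nf e x y - d * Cf e x y))

lemma per1 (x y : ℝ) : v1f e (x + 1) y = v1f e x y ∧ v1f e x (y + 1) = v1f e x y := by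
  unfold v1f; rw [sn_per, cs_per, cs2_per]; exact ⟨rfl, rfl⟩
lemma per2 (x y : ℝ) : v2f e (x + 1) y = v2f e x y ∧ v2f e x (y + 1) = v2f e x y := by
  unfold v2f; rw [cs_per, sn_per, sn2_per]; exact ⟨rfl, rfl⟩
lemma per11 (x y : ℝ) : v11f e (x + 1) y = v11f e x y ∧ v11f e x (y + 1) = v11f e x y := by
  unfold v11f; rw [sn_per, cs_per, cs2_per]; exact ⟨rfl, rfl⟩
lemma per12 (x y : ℝ) : v12f e (x + 1) y = v12f e x y ∧ v12f e x (y + 1) = v12f e x y := by
  unfold v12f; rw [sn_per, sn2_per]; exact ⟨rfl, rfl⟩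
lemma per22 (x y : ℝ) : v22f e (x + 1) y = v22f e x y ∧ v22f e x (y + 1) = v22f e x y := by
  unfold v22f; rw [cs_per, cs_per, cs2_per]; exact ⟨rfl, rfl⟩
lemma perz1 (x y : ℝ) : z1f e (x + 1) y = z1f e x y ∧ z1f e x (y + 1) = z1f e x y := by
  unfold z1f; rw [sn_per, cs_per, sn_per, cs_per, sn2_per, cs2_per]; exact ⟨rfl, rfl⟩
lemma perz2 (x y : ℝ) : z2f e (x + 1) y = z2f e x y ∧ z2f e x (y + 1) = z2f e x y := by
  unfold z2f; rw [sn_per, cs_per, sn_per, cs_per, sn2_per, cs2_per]; exact ⟨rfl, rfl⟩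
lemma perv (x y : ℝ) : vf e (x + 1) y = vf e x y ∧ vf e x (y + 1) = vf e x y := by
  unfold vf; rw [sn_per, cs_per, cs_per, cs2_per]; exact ⟨rfl, rfl⟩
lemma perz (x y : ℝ) : zf e (x + 1) y = zf e x y ∧ zf e x (y + 1) = zf e x y := by
  unfold zf; rw [sn_per, cs_per, sn_per, cs_per, sn2_per, cs2_per]; exact ⟨rfl, rfl⟩
lemma perN (x y : ℝ) : Nf e (x + 1) y = Nf e x y ∧ Nf e x (y + 1) = Nf e x y := by
  unfold Nf; rw [(per1 e x y).1, (per1 e x y).2, (per2 e x y).1, (per2 e x y).2]; exact ⟨rfl, rfl⟩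
lemma perC (x y : ℝ) : Cf e (x + 1) y = Cf e x y ∧ Cf e x (y + 1) = Cf e x y := by
  unfold Cf; rw [(per1 e x y).1, (per1 e x y).2, (per2 e x y).1, (per2 e x y).2,
    (per11 e x y).1, (per11 e x y).2, (per12 e x y).1, (per12 e x y).2, (per22 e x y).1,
    (per22 e x y).2]; exact ⟨rfl, rfl⟩
lemma perf (d x y : ℝ) : ff e d (x + 1) y = ff e d x y ∧ ff e d x (y + 1) = ff e d x y := by
  unfold ff; rw [(perN e x y).1, (perN e x y).2, (perC e x y).1, (perC e x y).2]; exact ⟨rfl, rfl⟩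

lemma sm1 {n : WithTop ℕ∞} : ContDiff ℝ n (fun q : ℝ × ℝ => v1f e q.1 q.2) := by
  have := contDiff_sn (n := n); have := contDiff_cs (n := n)
  have := contDiff_sn2 (n := n); have := contDiff_cs2 (n := n)
  unfold v1f u1; fun_prop
lemma sm2 {n : WithTop ℕ∞} : ContDiff ℝ n (fun q : ℝ × ℝ => v2f e q.1 q.2) := by
  have := contDiff_sn (n := n); have := contDiff_cs (n := n)
  have := contDiff_sn2 (n := n); have := contDiff_cs2 (n := n)
  unfold v2f u2 b1; fun_prop
lemma sm11 {n : WithTop ℕ∞} : ContDiff ℝ n (fun q : ℝ × ℝ => v11f e q.1 q.2) := by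
  have := contDiff_sn (n := n); have := contDiff_cs (n := n)
  have := contDiff_sn2 (n := n); have := contDiff_cs2 (n := n)
  unfold v11f u11; fun_prop
lemma sm12 {n : WithTop ℕ∞} : ContDiff ℝ n (fun q : ℝ × ℝ => v12f e q.1 q.2) := by
  have := contDiff_sn (n := n); have := contDiff_cs (n := n)
  have := contDiff_sn2 (n := n); have := contDiff_cs2 (n := n)
  unfold v12f u12; fun_prop
lemma sm22 {n : WithTop ℕ∞} : ContDiff ℝ n (fun q : ℝ × ℝ => v22f e q.1 q.2) := by
  have := contDiff_sn (n := n); have := contDiff_cs (n := n)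
  have := contDiff_sn2 (n := n); have := contDiff_cs2 (n := n)
  unfold v22f u22 b2; fun_prop
lemma smz1 : Continuous (fun q : ℝ × ℝ => z1f e q.1 q.2) := by
  have := (contDiff_sn (n := 0)).continuous; have := (contDiff_cs (n := 0)).continuous
  have := (contDiff_sn2 (n := 0)).continuous; have := (contDiff_cs2 (n := 0)).continuous
  unfold z1f y11 y21 PR QQ A1 gg; fun_prop
lemma smz2 : Continuous (fun q : ℝ × ℝ => z2f e q.1 q.2) := by
  have := (contDiff_sn (n := 0)).continuous; have := (contDiff_cs (n := 0)).continuous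
  have := (contDiff_sn2 (n := 0)).continuous; have := (contDiff_cs2 (n := 0)).continuous
  unfold z2f a1 y12 y22 dPR dQQ A1 dA1 gg dgg; fun_prop

lemma smn {n : WithTop ℕ∞} :
    ContDiff ℝ n (fun q : ℝ × ℝ => n2 (3 / 5 + v1f e q.1 q.2) (v2f e q.1 q.2)) := by
  have := sm1 e (n := n); have := sm2 e (n := n)
  unfold n2; fun_prop
lemma smN {n : WithTop ℕ∞} : ContDiff ℝ n (fun q : ℝ × ℝ => Nf e q.1 q.2) := by
  unfold Nf
  exact (smn e).sqrt (fun q => (n2_pos _ _).ne')
lemma smC {n : WithTop ℕ∞} : ContDiff ℝ n (fun q : ℝ × ℝ => Cf e q.1 q.2) := by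
  unfold Cf Cc
  have h1 := sm1 e (n := n); have h2 := sm2 e (n := n); have h3 := sm11 e (n := n)
  have h4 := sm12 e (n := n); have h5 := sm22 e (n := n)
  refine ContDiff.sub (by fun_prop) (ContDiff.div (by fun_prop) (smn e)
    (fun q => (n2_pos _ _).ne'))
lemma smf {n : WithTop ℕ∞} (d : ℝ) : ContDiff ℝ n (fun q : ℝ × ℝ => ff e d q.1 q.2) := by
  have h1 := smN e (n := n); have h2 := smC e (n := n)
  unfold ff; fun_prop

end fns

/-- the effective burning velocity of `G` in the direction `P` exists and is equal to `H` -/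
def HasVelocity (p₁ p₂ p₃ : ℝ) (G : Fn) (H : ℝ) : Prop :=
  ∀ x y z, Tendsto (fun t => -((G x y z t - (p₁ * x + p₂ * y + p₃ * z)) / t)) atTop (𝓝 H)

theorem main : ∃ (f : ℝ → ℝ → ℝ) (d c₀ : ℝ),
    (∀ n : ℕ, ContDiff ℝ n (fun q : ℝ × ℝ => f q.1 q.2)) ∧
    (∃ K, LipschitzWith K (fun q : ℝ × ℝ => f q.1 q.2)) ∧
    (∀ x y, f (x + 1) y = f x y ∧ f x (y + 1) = f x y) ∧ (∃ x y x' y', f x y ≠ f x' y') ∧
    0 < d ∧ c₀ < 1 ∧
    (∀ G, IsSolution f d 1 (3 / 5) 0 (4 / 5) G →
      ∃ K, ∀ x y z t, 0 ≤ t → |G x y z t - (3 / 5 * x + 0 * y + 4 / 5 * z - t)| ≤ K) ∧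
    (∀ G, IsSolution f 0 1 (3 / 5) 0 (4 / 5) G →
      ∃ K, ∀ x y z t, 0 ≤ t → 3 / 5 * x + 0 * y + 4 / 5 * z - c₀ * t - K ≤ G x y z t) := by
  obtain ⟨e, he0, he1, hcore⟩ := core
  -- the negative quantity
  set g : ℝ → ℝ → ℝ := fun x y => EE (3 / 5 + v1f e x y) (v2f e x y) (v11f e x y) (v12f e x y)
    (v22f e x y) (z1f e x y) (z2f e x y) with hg
  have hgneg : ∀ x y, g x y < 0 := fun x y => neg_EE e x y (hcore _ _ _ _ _ _ (abs_sn x)
    (abs_cs x) (abs_sn y) (abs_cs y) (abs_sn2 y) (abs_cs2 y) (sn_sq_add x) (cs2_eq y))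
  have hgper : ∀ x y, g (x + 1) y = g x y ∧ g x (y + 1) = g x y := by
    intro x y
    simp only [hg]
    rw [(per1 e x y).1, (per1 e x y).2, (per2 e x y).1, (per2 e x y).2,
      (per11 e x y).1, (per11 e x y).2, (per12 e x y).1, (per12 e x y).2, (per22 e x y).1,
      (per22 e x y).2, (perz1 e x y).1, (perz1 e x y).2, (perz2 e x y).1, (perz2 e x y).2]
    exact ⟨rfl, rfl⟩
  have hgc : Continuous (fun q : ℝ × ℝ => g q.1 q.2) := by
    simp only [hg, EE]
    have h1 := (sm1 e (n := 0)).continuous; have h2 := (sm2 e (n := 0)).continuous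
    have h3 := (sm11 e (n := 0)).continuous; have h4 := (sm12 e (n := 0)).continuous
    have h5 := (sm22 e (n := 0)).continuous; have h6 := smz1 e; have h7 := smz2 e
    unfold n2
    fun_prop
  obtain ⟨m, hm, hgm⟩ := neg_per hgc (fun x y => (hgper x y).1) (fun x y => (hgper x y).2) hgneg
  obtain ⟨Nm', hNm'0, hNm'⟩ := bdd_per (smN e (n := 0)).continuous (fun x y => (perN e x y).1)
    (fun x y => (perN e x y).2)
  obtain ⟨Cm, hCm0, hCm⟩ := bdd_per (smC e (n := 0)).continuous (fun x y => (perC e x y).1)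
    (fun x y => (perC e x y).2)
  obtain ⟨Z1, hZ10, hZ1⟩ := bdd_per (smz1 e) (fun x y => (perz1 e x y).1)
    (fun x y => (perz1 e x y).2)
  obtain ⟨Z2, hZ20, hZ2⟩ := bdd_per (smz2 e) (fun x y => (perz2 e x y).1)
    (fun x y => (perz2 e x y).2)
  set Nm := Nm' + 1 with hNmdef
  have hNmpos : 0 < Nm := by positivity
  have hNm : ∀ x y, Nf e x y ≤ Nm := fun x y => by
    have := (le_abs_self _).trans (hNm' x y); linarith
  set Zm := Z1 ^ 2 + Z2 ^ 2 with hZm
  have hZ : ∀ x y, z1f e x y ^ 2 + z2f e x y ^ 2 ≤ Zm := by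
    intro x y
    have h1 : z1f e x y ^ 2 ≤ Z1 ^ 2 := sq_le_sq' (abs_le.1 (hZ1 x y)).1 (abs_le.1 (hZ1 x y)).2
    have h2 : z2f e x y ^ 2 ≤ Z2 ^ 2 := sq_le_sq' (abs_le.1 (hZ2 x y)).1 (abs_le.1 (hZ2 x y)).2
    linarith
  have hZm0 : 0 ≤ Zm := by positivity
  set μ := m / (2 * Nm ^ 2) with hμdef
  have hμ : 0 < μ := by positivity
  set d := min (min (2 / (5 * (Cm + μ + 1))) (m / (Nm * (Zm + 1)))) (e / (2 * Nm * (Cm + 1)))
    with hddef
  have hd : 0 < d := by positivity
  have hd1 : d * (Cm + μ) ≤ 2 / 5 := by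
    have h1 : d ≤ 2 / (5 * (Cm + μ + 1)) := (min_le_left _ _).trans (min_le_left _ _)
    rw [le_div_iff₀ (by positivity)] at h1
    nlinarith
  have hd2 : d * Nm * Zm ≤ m := by
    have h1 : d ≤ m / (Nm * (Zm + 1)) := (min_le_left _ _).trans (min_le_right _ _)
    rw [le_div_iff₀ (by positivity)] at h1
    have : 0 ≤ d * Nm := by positivity
    nlinarith
  have hd3 : 2 * Nm * (d * (Cm + 1)) ≤ e := by
    have h1 : d ≤ e / (2 * Nm * (Cm + 1)) := min_le_right _ _
    rw [le_div_iff₀ (by positivity)] at h1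
    linarith
  have hμ2 : 2 * Nm ^ 2 * μ ≤ m := by
    rw [hμdef]
    field_simp
    exact le_rfl
  have hN45 : ∀ x y, 4 / 5 ≤ Nf e x y := fun x y => le_sqrt_n2 _ _
  have hpos : ∀ x y, 0 ≤ Nf e x y - d * Cf e x y - d * μ := by
    intro x y
    have h1 := hN45 x y
    have h2 : d * Cf e x y ≤ d * Cm := mul_le_mul_of_nonneg_left ((le_abs_self _).trans (hCm x y)) hd.le
    nlinarith
  refine ⟨ff e d, d, 1 - d * μ, fun n => smf e d, lip_per (smf e d) (fun x y => (perf e d x y).1)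
    (fun x y => (perf e d x y).2), perf e d, ?_, hd, by nlinarith [mul_pos hd hμ], ?_, ?_⟩
  · -- not constant
    refine ⟨0, 0, 1 / 2, 0, fun hcon => ?_⟩
    have k1 : Nf e 0 0 - d * Cf e 0 0 = Nf e (1 / 2) 0 - d * Cf e (1 / 2) 0 := by
      unfold ff at hcon
      linarith
    have s0 : sn 0 = 0 := by unfold sn; simp
    have c0 : cs 0 = 1 := by unfold cs; simp
    have s20 : sn2 0 = 0 := by unfold sn2; simp
    have c20 : cs2 0 = 1 := by unfold cs2; simp
    have sh : sn (1 / 2) = 0 := by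
      unfold sn
      rw [show 2 * Real.pi * (1 / 2) = Real.pi by ring, Real.sin_pi]
    have ch : cs (1 / 2) = -1 := by
      unfold cs
      rw [show 2 * Real.pi * (1 / 2) = Real.pi by ring, Real.cos_pi]
    have n0 : Nf e 0 0 ^ 2 = (3 / 5 + e) ^ 2 + (4 / 5) ^ 2 := by
      unfold Nf
      rw [Real.sq_sqrt (n2_pos _ _).le]
      unfold n2 v1f v2f u1 u2 b1
      rw [s0, c0, s20, c20]
      ring
    have nh : Nf e (1 / 2) 0 ^ 2 = (3 / 5 - e) ^ 2 + (4 / 5) ^ 2 := by
      unfold Nf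
      rw [Real.sq_sqrt (n2_pos _ _).le]
      unfold n2 v1f v2f u1 u2 b1
      rw [s0, sh, ch, s20, c20]
      ring
    have k2 : (Nf e 0 0 - Nf e (1 / 2) 0) * (Nf e 0 0 + Nf e (1 / 2) 0) = 12 / 5 * e := by
      have : (Nf e 0 0 - Nf e (1 / 2) 0) * (Nf e 0 0 + Nf e (1 / 2) 0) =
        Nf e 0 0 ^ 2 - Nf e (1 / 2) 0 ^ 2 := by ring
      rw [this, n0, nh]; ring
    have k3 : Nf e 0 0 - Nf e (1 / 2) 0 ≤ 2 * (d * Cm) := by
      have a1 : d * Cf e 0 0 ≤ d * Cm :=
        mul_le_mul_of_nonneg_left ((le_abs_self _).trans (hCm 0 0)) hd.le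
      have a2 : -(d * Cm) ≤ d * Cf e (1 / 2) 0 := by
        have := (abs_le.1 (hCm (1 / 2) 0)).1
        nlinarith
      linarith
    have k4 : 0 < Nf e 0 0 + Nf e (1 / 2) 0 := by
      have := hN45 0 0; have := hN45 (1 / 2) 0; linarith
    have k5 : Nf e 0 0 + Nf e (1 / 2) 0 ≤ 2 * Nm := by
      have := hNm 0 0; have := hNm (1 / 2) 0; linarith
    have k6 : 0 ≤ 2 * (d * Cm) := by positivity
    have k7 : (Nf e 0 0 - Nf e (1 / 2) 0) * (Nf e 0 0 + Nf e (1 / 2) 0) ≤
        2 * (d * Cm) * (2 * Nm) := by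
      calc (Nf e 0 0 - Nf e (1 / 2) 0) * (Nf e 0 0 + Nf e (1 / 2) 0)
          ≤ 2 * (d * Cm) * (Nf e 0 0 + Nf e (1 / 2) 0) := mul_le_mul_of_nonneg_right k3 k4.le
        _ ≤ 2 * (d * Cm) * (2 * Nm) := mul_le_mul_of_nonneg_left k5 k6
    have k8 : 0 ≤ d * Nm := by positivity
    nlinarith
  · -- `d > 0`
    intro G hG
    obtain ⟨V, hV0, hV⟩ := bdd_per (contDiff_vf e).continuous (fun x y => (perv e x y).1)
      (fun x y => (perv e x y).2)
    obtain ⟨M1, -, hM1⟩ := bdd_per (sm1 e (n := 0)).continuous (fun x y => (per1 e x y).1)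
      (fun x y => (per1 e x y).2)
    obtain ⟨M2, -, hM2⟩ := bdd_per (sm2 e (n := 0)).continuous (fun x y => (per2 e x y).1)
      (fun x y => (per2 e x y).2)
    obtain ⟨M3, -, hM3⟩ := bdd_per (sm11 e (n := 0)).continuous (fun x y => (per11 e x y).1)
      (fun x y => (per11 e x y).2)
    obtain ⟨M4, -, hM4⟩ := bdd_per (sm12 e (n := 0)).continuous (fun x y => (per12 e x y).1)
      (fun x y => (per12 e x y).2)
    obtain ⟨M5, -, hM5⟩ := bdd_per (sm22 e (n := 0)).continuous (fun x y => (per22 e x y).1)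
      (fun x y => (per22 e x y).2)
    obtain ⟨M6, -, hM6⟩ := bdd_per (smf e d (n := 0)).continuous (fun x y => (perf e d x y).1)
      (fun x y => (perf e d x y).2)
    have hop := hop_gen (d := d) (A := 1) (p₁ := 3 / 5) (p₂ := 0) (p₃ := 4 / 5)
      (M := max (max (M1 + 1) M2) (max (max M3 M4) (max M5 M6))) (f := ff e d)
      (by norm_num) (jet_v e)
      (fun x y => by
        have h1 := hM1 x y
        have h2 : |3 / 5 + v1f e x y| ≤ M1 + 1 := by
          refine (abs_add_le _ _).trans ?_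
          rw [abs_of_pos (by norm_num : (0 : ℝ) < 3 / 5)]
          linarith
        exact h2.trans ((le_max_left _ _).trans (le_max_left _ _)))
      (fun x y => by
        rw [zero_add]
        exact (hM2 x y).trans ((le_max_right _ _).trans (le_max_left _ _)))
      (fun x y => (hM3 x y).trans ((le_max_left _ _).trans ((le_max_left _ _).trans
        (le_max_right _ _))))
      (fun x y => (hM4 x y).trans ((le_max_right _ _).trans ((le_max_left _ _).trans
        (le_max_right _ _))))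
      (fun x y => (hM5 x y).trans ((le_max_left _ _).trans ((le_max_right _ _).trans
        (le_max_right _ _))))
      (fun x y => (hM6 x y).trans ((le_max_right _ _).trans ((le_max_right _ _).trans
        (le_max_right _ _))))
    have hexact : ∀ x y, Ff d (3 / 5 + v1f e x y) (0 + v2f e x y) (4 / 5) (v11f e x y)
        (v12f e x y) (v22f e x y) 0 + 1 * ff e d x y * (4 / 5) = 1 := by
      intro x y
      have h1 : Ff d (3 / 5 + v1f e x y) (0 + v2f e x y) (4 / 5) (v11f e x y)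
        (v12f e x y) (v22f e x y) 0 = max (Nf e x y - d * Cf e x y) 0 := by
        unfold Ff Nf Cf Cc n2
        rw [zero_add, mul_zero, add_zero, add_zero]
      have h2 : 0 ≤ Nf e x y - d * Cf e x y := by
        have := hpos x y
        have : 0 ≤ d * μ := by positivity
        linarith
      rw [h1, max_eq_left h2]
      unfold ff
      ring
    refine ⟨2 * V, fun x y z t ht => ?_⟩
    have hup := comp_sub (c := 1) hG (contDiff_vf e) hV (fun η hη => by
      obtain ⟨ε0, hε0, h⟩ := hop η hη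
      refine ⟨ε0, hε0, fun ε hε h' x y z t => ?_⟩
      obtain ⟨k1, k2⟩ := h ε hε h' x y z t
      refine ⟨k1, ?_⟩
      rw [hexact] at k2
      have := (abs_le.1 k2).1
      linarith) x y z t ht
    have hlo := comp_super (c := 1) hG (contDiff_vf e) hV (fun η hη => by
      obtain ⟨ε0, hε0, h⟩ := hop η hη
      refine ⟨ε0, hε0, fun ε hε h' x y z t => ?_⟩
      obtain ⟨k1, k2⟩ := h ε hε h' x y z t
      refine ⟨k1, ?_⟩
      rw [hexact] at k2
      have := (abs_le.1 k2).2
      linarith) x y z t ht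
    have hv := abs_le.1 (hV x y)
    rw [abs_le]
    constructor <;> linarith
  · -- `d = 0`
    intro G hG
    set φ : ℝ → ℝ → ℝ := fun x y => vf e x y + d * zf e x y with hφ
    have hφs : ContDiff ℝ 2 (fun q : ℝ × ℝ => φ q.1 q.2) :=
      (contDiff_vf e).add (contDiff_const.mul (contDiff_zf e))
    obtain ⟨V, hV0, hV⟩ := bdd_per hφs.continuous
      (fun x y => by simp only [hφ]; rw [(perv e x y).1, (perz e x y).1])
      (fun x y => by simp only [hφ]; rw [(perv e x y).2, (perz e x y).2])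
    obtain ⟨M1, -, hM1⟩ := bdd_per (sm1 e (n := 0)).continuous (fun x y => (per1 e x y).1)
      (fun x y => (per1 e x y).2)
    obtain ⟨M2, -, hM2⟩ := bdd_per (sm2 e (n := 0)).continuous (fun x y => (per2 e x y).1)
      (fun x y => (per2 e x y).2)
    obtain ⟨M6, -, hM6⟩ := bdd_per (smf e d (n := 0)).continuous (fun x y => (perf e d x y).1)
      (fun x y => (perf e d x y).2)
    have hop := hop_zero (A := 1) (p₁ := 3 / 5) (p₂ := 0) (p₃ := 4 / 5)
      (v := φ) (v1 := fun x y => v1f e x y + d * z1f e x y)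
      (v2 := fun x y => v2f e x y + d * z2f e x y)
      (M := max (max (M1 + 1 + d * Z1) (M2 + d * Z2)) M6) (f := ff e d)
      (by norm_num)
      (fun x y => ((jet_v e).h1 x y).add ((hz1 e x y).const_mul d))
      (fun x y => ((jet_v e).h2 x y).add ((hz2 e x y).const_mul d))
      (fun x y => by
        have h1 := hM1 x y
        have h2 : |3 / 5 + (v1f e x y + d * z1f e x y)| ≤ M1 + 1 + d * Z1 := by
          refine (abs_add_le _ _).trans ?_
          rw [abs_of_pos (by norm_num : (0 : ℝ) < 3 / 5)]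
          have h3 := abs_add_le (v1f e x y) (d * z1f e x y)
          rw [abs_mul, abs_of_pos hd] at h3
          have h4 := mul_le_mul_of_nonneg_left (hZ1 x y) hd.le
          linarith
        exact h2.trans ((le_max_left _ _).trans (le_max_left _ _)))
      (fun x y => by
        rw [zero_add]
        have h3 := abs_add_le (v2f e x y) (d * z2f e x y)
        rw [abs_mul, abs_of_pos hd] at h3
        have h4 := mul_le_mul_of_nonneg_left (hZ2 x y) hd.le
        have h5 := hM2 x y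
        exact (by linarith : |v2f e x y + d * z2f e x y| ≤ M2 + d * Z2).trans
          ((le_max_right _ _).trans (le_max_left _ _)))
      (fun x y => (hM6 x y).trans (le_max_right _ _))
    have hineq : ∀ x y, √((3 / 5 + (v1f e x y + d * z1f e x y)) ^ 2 +
        (0 + (v2f e x y + d * z2f e x y)) ^ 2 + (4 / 5) ^ 2) + 1 * ff e d x y * (4 / 5) ≤
        1 - d * μ := by
      intro x y
      have h1 := ptwise (a := 3 / 5 + v1f e x y) (b := v2f e x y) (m11 := v11f e x y)
        (m12 := v12f e x y) (m22 := v22f e x y) (z1 := z1f e x y) (z2 := z2f e x y)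
        (N := Nf e x y) (C := Cf e x y) (d := d) (μ := μ) (m := m) (Nm := Nm) (Zm := Zm)
        (Real.sq_sqrt (n2_pos _ _).le) (by have := hN45 x y; linarith) rfl (hgm x y) hm (hNm x y)
        (hZ x y) hd hμ hμ2 hd2 (hpos x y)
      have e1 : 3 / 5 + (v1f e x y + d * z1f e x y) = 3 / 5 + v1f e x y + d * z1f e x y := by ring
      rw [e1, zero_add]
      unfold ff
      linarith
    refine ⟨2 * V, fun x y z t ht => ?_⟩
    have hlo := comp_super (c := 1 - d * μ) hG hφs hV (fun η hη => by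
      obtain ⟨ε0, hε0, h⟩ := hop η hη
      refine ⟨ε0, hε0, fun ε hε h' x y z t => ?_⟩
      obtain ⟨k1, k2⟩ := h ε hε h' x y z t
      refine ⟨k1, ?_⟩
      have k3 := (abs_le.1 k2).2
      have k4 := hineq x y
      linarith) x y z t ht
    have hv := abs_le.1 (hV x y)
    linarith

end Pool.Agent.U574.FS
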