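import Pool.Agent.U574.FS.Jet
import Pool.Agent.U574.FS.Core

set_option autoImplicit false

/-!
The functions on the torus.
-/

namespace Pool.Agent.U574.FS

open Real

/-- `sin 2πx` -/
noncomputable def sn (x : ℝ) : ℝ := sin (2 * π * x)
/-- `cos 2πx` -/
noncomputable def cs (x : ℝ) : ℝ := cos (2 * π * x)
/-- `sin 4πx` -/
noncomputable def sn2 (x : ℝ) : ℝ := sin (4 * π * x)
/-- `cos 4πx` -/
noncomputable def cs2 (x : ℝ) : ℝ := cos (4 * π * x)

lemma hsn (x : ℝ) : HasDerivAt sn (2 * π * cs x) x := by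
  have h := ((hasDerivAt_id x).const_mul (2 * π)).sin
  refine h.congr_deriv ?_
  unfold cs
  simp only [id, mul_one]
  ring

lemma hcs (x : ℝ) : HasDerivAt cs (-(2 * π * sn x)) x := by
  have h := ((hasDerivAt_id x).const_mul (2 * π)).cos
  refine h.congr_deriv ?_
  unfold sn
  simp only [id, mul_one]
  ring

lemma hsn2 (x : ℝ) : HasDerivAt sn2 (4 * π * cs2 x) x := by
  have h := ((hasDerivAt_id x).const_mul (4 * π)).sin
  refine h.congr_deriv ?_
  unfold cs2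
  simp only [id, mul_one]
  ring

lemma hcs2 (x : ℝ) : HasDerivAt cs2 (-(4 * π * sn2 x)) x := by
  have h := ((hasDerivAt_id x).const_mul (4 * π)).cos
  refine h.congr_deriv ?_
  unfold sn2
  simp only [id, mul_one]
  ring

lemma contDiff_sn {n : WithTop ℕ∞} : ContDiff ℝ n sn := by unfold sn; fun_prop
lemma contDiff_cs {n : WithTop ℕ∞} : ContDiff ℝ n cs := by unfold cs; fun_prop
lemma contDiff_sn2 {n : WithTop ℕ∞} : ContDiff ℝ n sn2 := by unfold sn2; fun_prop
lemma contDiff_cs2 {n : WithTop ℕ∞} : ContDiff ℝ n cs2 := by unfold cs2; fun_prop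

lemma sn_per (x : ℝ) : sn (x + 1) = sn x := by
  unfold sn
  rw [show 2 * π * (x + 1) = 2 * π * x + 2 * π by ring, sin_add_two_pi]
lemma cs_per (x : ℝ) : cs (x + 1) = cs x := by
  unfold cs
  rw [show 2 * π * (x + 1) = 2 * π * x + 2 * π by ring, cos_add_two_pi]
lemma sn2_per (x : ℝ) : sn2 (x + 1) = sn2 x := by
  unfold sn2
  rw [show 4 * π * (x + 1) = 4 * π * x + 2 * π + 2 * π by ring, sin_add_two_pi, sin_add_two_pi]
lemma cs2_per (x : ℝ) : cs2 (x + 1) = cs2 x := by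
  unfold cs2
  rw [show 4 * π * (x + 1) = 4 * π * x + 2 * π + 2 * π by ring, cos_add_two_pi, cos_add_two_pi]

lemma sn_sq_add (x : ℝ) : sn x ^ 2 + cs x ^ 2 = 1 := by
  unfold sn cs
  exact sin_sq_add_cos_sq _

lemma cs2_eq (x : ℝ) : cs2 x = 1 - 2 * sn x ^ 2 := by
  unfold cs2 sn
  rw [show 4 * π * x = 2 * (2 * π * x) by ring, cos_two_mul, cos_sq']
  ring

lemma abs_sn (x : ℝ) : |sn x| ≤ 1 := abs_sin_le_one _
lemma abs_cs (x : ℝ) : |cs x| ≤ 1 := abs_cos_le_one _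
lemma abs_sn2 (x : ℝ) : |sn2 x| ≤ 1 := abs_sin_le_one _
lemma abs_cs2 (x : ℝ) : |cs2 x| ≤ 1 := abs_cos_le_one _

/-- the function `v` -/
noncomputable def vf (e : ℝ) (x y : ℝ) : ℝ :=
  1 / (2 * π) * (e * (cs x * cs2 y + sn x) + e ^ 2 * (-(3 / 5) * cs y + 5 / 6 * cs2 y))
/-- `∂₁ v` -/
noncomputable def v1f (e : ℝ) (x y : ℝ) : ℝ := e * u1 (sn x) (cs x) (cs2 y)
/-- `∂₂ v` -/
noncomputable def v2f (e : ℝ) (x y : ℝ) : ℝ := e * u2 (cs x) (sn2 y) + e ^ 2 * b1 (sn y) (sn2 y)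
/-- `∂₁₁ v` -/
noncomputable def v11f (e : ℝ) (x y : ℝ) : ℝ := 2 * π * (e * u11 (sn x) (cs x) (cs2 y))
/-- `∂₁₂ v` -/
noncomputable def v12f (e : ℝ) (x y : ℝ) : ℝ := 2 * π * (e * u12 (sn x) (sn2 y))
/-- `∂₂₂ v` -/
noncomputable def v22f (e : ℝ) (x y : ℝ) : ℝ :=
  2 * π * (e * u22 (cs x) (cs2 y) + e ^ 2 * b2 (cs y) (cs2 y))

lemma jet_v (e : ℝ) : Jet (vf e) (v1f e) (v2f e) (v11f e) (v12f e) (v22f e) where
  h1 x y := by
    unfold vf v1f
    have h := ((((((hcs x).mul_const (cs2 y)).add (hsn x)).const_mul e).add_const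
      (e ^ 2 * (-(3 / 5) * cs y + 5 / 6 * cs2 y))).const_mul (1 / (2 * π)))
    refine h.congr_deriv ?_
    unfold u1
    have := pi_ne_zero
    field_simp
  h2 x y := by
    unfold vf v2f
    have h := ((((((hcs2 y).const_mul (cs x)).add_const (sn x)).const_mul e).add
      ((((hcs y).const_mul (-(3 / 5))).add ((hcs2 y).const_mul (5 / 6))).const_mul
        (e ^ 2))).const_mul (1 / (2 * π)))
    refine h.congr_deriv ?_
    unfold u2 b1
    have := pi_ne_zero
    field_simp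
    ring
  h11 x y := by
    unfold v1f v11f u1 u11
    have h := ((((hsn x).mul_const (cs2 y)).neg.add (hcs x)).const_mul e)
    refine h.congr_deriv ?_
    ring
  h12 x y := by
    unfold v1f v12f u1 u12
    have h := ((((hcs2 y).const_mul (sn x)).neg.add_const (cs x)).const_mul e)
    refine h.congr_deriv ?_
    ring
  h21 x y := by
    unfold v2f v12f u2 u12
    have h := (((((hcs x).const_mul 2).mul_const (sn2 y)).neg.const_mul e).add_const
      (e ^ 2 * b1 (sn y) (sn2 y)))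
    refine h.congr_deriv ?_
    ring
  h22 x y := by
    unfold v2f v22f u2 u22 b1 b2
    have h := ((((hsn2 y).const_mul (2 * cs x)).neg.const_mul e).add
      ((((hsn y).const_mul (3 / 5)).sub ((hsn2 y).const_mul (5 / 3))).const_mul (e ^ 2)))
    refine h.congr_deriv ?_
    ring

/-- the function `z` -/
noncomputable def zf (e : ℝ) (x y : ℝ) : ℝ :=
  4 * cs y + e * y1 (sn x) (cs x) (sn y) (sn2 y) (cs2 y) +
    e ^ 2 * y2 (sn x) (cs x) (sn y) (cs y) (sn2 y) (cs2 y)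
/-- `∂₁ z` -/
noncomputable def z1f (e : ℝ) (x y : ℝ) : ℝ :=
  2 * π * (e * y11 (sn x) (cs x) (sn y) (sn2 y) (cs2 y) +
    e ^ 2 * y21 (sn x) (cs x) (sn y) (cs y) (sn2 y) (cs2 y))
/-- `∂₂ z` -/
noncomputable def z2f (e : ℝ) (x y : ℝ) : ℝ :=
  2 * π * (a1 (sn y) + e * y12 (sn x) (sn y) (cs y) (sn2 y) (cs2 y) +
    e ^ 2 * y22 (sn x) (cs x) (sn y) (cs y) (sn2 y) (cs2 y))

lemma hz1 (e x y : ℝ) : HasDerivAt (fun s => zf e s y) (z1f e x y) x := by
  unfold zf z1f
  have g1 : HasDerivAt (fun s => y1 (sn s) (cs s) (sn y) (sn2 y) (cs2 y))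
      (2 * π * y11 (sn x) (cs x) (sn y) (sn2 y) (cs2 y)) x := by
    unfold y1 y11
    have h := ((((((hsn x).const_mul 8).mul_const (sn y)).mul_const (sn2 y)).sub
      (((hsn x).const_mul (116 / 25)).mul_const (cs2 y))).add
        ((hcs x).const_mul (16 / 25))).const_mul (-(5 / 3))
    refine h.congr_deriv ?_
    ring
  have g2 : HasDerivAt (fun s => y2 (sn s) (cs s) (sn y) (cs y) (sn2 y) (cs2 y))
      (2 * π * y21 (sn x) (cs x) (sn y) (cs y) (sn2 y) (cs2 y)) x := by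
    unfold y2 y21
    have h := ((((hsn x).mul (hcs x)).const_mul (PR (sn y) (sn2 y) (cs2 y))).add
      (((hsn x).pow 2).const_mul (QQ (sn y) (cs y) (sn2 y) (cs2 y) / 2))).const_mul (-(5 / 3))
    refine h.congr_deriv ?_
    norm_num
    ring
  have h := ((g1.const_mul e).const_add (4 * cs y)).add (g2.const_mul (e ^ 2))
  refine h.congr_deriv ?_
  ring

lemma hA1 (y : ℝ) : HasDerivAt (fun s => A1 (sn s) (sn2 s) (cs2 s))
    (2 * π * dA1 (sn y) (cs y) (sn2 y) (cs2 y)) y := by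
  unfold A1 dA1
  have h := (((hsn y).const_mul (-(40 / 3))).mul (hsn2 y)).add ((hcs2 y).const_mul (2144 / 375))
  refine h.congr_deriv ?_
  ring

lemma hgg (y : ℝ) : HasDerivAt (fun s => gg (sn s) (cs s) (sn2 s) (cs2 s))
    (2 * π * dgg (sn y) (cs y) (sn2 y) (cs2 y)) y := by
  unfold gg dgg
  have h := ((((((hcs y).mul (hsn2 y)).add (((hsn y).const_mul 2).mul (hcs2 y))).const_mul 8).add
    ((hsn2 y).const_mul (232 / 25))).const_mul (-(5 / 3)))
  refine h.congr_deriv ?_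
  ring

lemma hPR (y : ℝ) : HasDerivAt (fun s => PR (sn s) (sn2 s) (cs2 s))
    (2 * π * dPR (sn y) (cs y) (sn2 y) (cs2 y)) y := by
  unfold PR dPR
  have h := ((hA1 y).add ((hcs2 y).const_mul (544 / 375))).div_const 2
  refine h.congr_deriv ?_
  ring

lemma hQQ (y : ℝ) : HasDerivAt (fun s => QQ (sn s) (cs s) (sn2 s) (cs2 s))
    (2 * π * dQQ (sn y) (cs y) (sn2 y) (cs2 y)) y := by
  unfold QQ dQQ
  have h := ((((hcs2 y).mul (hA1 y)).const_sub (544 / 375)).sub
    (((hgg y).const_mul 2).mul (hsn2 y))).add (((hsn2 y).pow 2).const_mul (24 / 5))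
  refine h.congr_deriv ?_
  norm_num
  ring

lemma hz2 (e x y : ℝ) : HasDerivAt (fun s => zf e x s) (z2f e x y) y := by
  unfold zf z2f
  have g1 : HasDerivAt (fun s => y1 (sn x) (cs x) (sn s) (sn2 s) (cs2 s))
      (2 * π * y12 (sn x) (sn y) (cs y) (sn2 y) (cs2 y)) y := by
    unfold y1 y12
    have h := ((((((hsn y).const_mul (8 * sn x)).mul (hsn2 y)).sub
      ((hcs2 y).const_mul (116 / 25 * sn x))).add_const (16 / 25 * cs x)).const_mul (-(5 / 3)))
    refine h.congr_deriv ?_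
    ring
  have g2 : HasDerivAt (fun s => y2 (sn x) (cs x) (sn s) (cs s) (sn2 s) (cs2 s))
      (2 * π * y22 (sn x) (cs x) (sn y) (cs y) (sn2 y) (cs2 y)) y := by
    unfold y2 y22
    have h := (((hPR y).mul_const (sn x * cs x)).add
      (((hQQ y).div_const 2).mul_const (sn x ^ 2))).const_mul (-(5 / 3))
    refine h.congr_deriv ?_
    ring
  have h := (((hcs y).const_mul 4).add (g1.const_mul e)).add (g2.const_mul (e ^ 2))
  refine h.congr_deriv ?_
  unfold a1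
  ring

lemma contDiff_vf (e : ℝ) : ContDiff ℝ 2 (fun q : ℝ × ℝ => vf e q.1 q.2) := by
  have := contDiff_sn (n := 2); have := contDiff_cs (n := 2)
  have := contDiff_sn2 (n := 2); have := contDiff_cs2 (n := 2)
  unfold vf
  fun_prop

lemma contDiff_zf (e : ℝ) : ContDiff ℝ 2 (fun q : ℝ × ℝ => zf e q.1 q.2) := by
  have := contDiff_sn (n := 2); have := contDiff_cs (n := 2)
  have := contDiff_sn2 (n := 2); have := contDiff_cs2 (n := 2)
  unfold zf y1 y2 PR QQ A1 gg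
  fun_prop

lemma neg_EE (e : ℝ) (x y : ℝ) (h : Et e (sn x) (cs x) (sn y) (cs y) (sn2 y) (cs2 y) < 0) :
    EE (3 / 5 + v1f e x y) (v2f e x y) (v11f e x y) (v12f e x y) (v22f e x y) (z1f e x y)
      (z2f e x y) < 0 := by
  have e1 : EE (3 / 5 + v1f e x y) (v2f e x y) (v11f e x y) (v12f e x y) (v22f e x y) (z1f e x y)
      (z2f e x y) = 2 * π * Et e (sn x) (cs x) (sn y) (cs y) (sn2 y) (cs2 y) := by
    unfold Et EE v1f v2f v11f v12f v22f z1f z2f
    ring
  rw [e1]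
  have := pi_pos
  nlinarith

end Pool.Agent.U574.FS
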