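import Mathlib

set_option autoImplicit false

/-!
Viscosity solutions of the curvature G-equation in a three-dimensional shear flow, and comparison with
smooth barriers.
-/

namespace Pool.Agent.U574.FS

open Set Filter Topology

/-- real functions of `(x₁, x₂, x₃, t)` -/
abbrev Fn := ℝ → ℝ → ℝ → ℝ → ℝ

/-- the partial derivative in `x₁` -/
noncomputable def d1 (φ : Fn) : Fn := fun x y z t => deriv (fun s => φ s y z t) x
/-- the partial derivative in `x₂` -/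
noncomputable def d2 (φ : Fn) : Fn := fun x y z t => deriv (fun s => φ x s z t) y
/-- the partial derivative in `x₃` -/
noncomputable def d3 (φ : Fn) : Fn := fun x y z t => deriv (fun s => φ x y s t) z
/-- the partial derivative in `t` -/
noncomputable def dt (φ : Fn) : Fn := fun x y z t => deriv (fun s => φ x y z s) t

/-- the length `|Dφ|` of the spatial gradient -/
noncomputable def nrm (φ : Fn) : Fn := fun x y z t =>
  √(d1 φ x y z t ^ 2 + d2 φ x y z t ^ 2 + d3 φ x y z t ^ 2)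

/-- `div (Dφ / |Dφ|)` -/
noncomputable def curv (φ : Fn) : Fn := fun x y z t =>
  d1 (fun x y z t => d1 φ x y z t / nrm φ x y z t) x y z t +
  d2 (fun x y z t => d2 φ x y z t / nrm φ x y z t) x y z t +
  d3 (fun x y z t => d3 φ x y z t / nrm φ x y z t) x y z t

/-- the left-hand side `φ_t + (1 - d div (Dφ/|Dφ|))₊ |Dφ| + A f φ_{x₃}` of the equation -/
noncomputable def op (f : ℝ → ℝ → ℝ) (d A : ℝ) (φ : Fn) : Fn := fun x y z t =>
  dt φ x y z t + max (1 - d * curv φ x y z t) 0 * nrm φ x y z t + A * f x y * d3 φ x y z t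

/-- test functions: twice continuously differentiable -/
def IsTest (φ : Fn) : Prop :=
  ContDiff ℝ 2 (fun q : ℝ × ℝ × ℝ × ℝ => φ q.1 q.2.1 q.2.2.1 q.2.2.2)

/-- viscosity subsolution, tested at the points where the gradient of the test function is not `0` -/
def IsSubsolution (f : ℝ → ℝ → ℝ) (d A : ℝ) (G : Fn) : Prop :=
  ∀ φ : Fn, IsTest φ → ∀ x y z t : ℝ, 0 < t → nrm φ x y z t ≠ 0 →
    IsLocalMax (fun q : ℝ × ℝ × ℝ × ℝ =>
      G q.1 q.2.1 q.2.2.1 q.2.2.2 - φ q.1 q.2.1 q.2.2.1 q.2.2.2) (x, y, z, t) →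
    op f d A φ x y z t ≤ 0

/-- viscosity supersolution, tested at the points where the gradient of the test function is not `0` -/
def IsSupersolution (f : ℝ → ℝ → ℝ) (d A : ℝ) (G : Fn) : Prop :=
  ∀ φ : Fn, IsTest φ → ∀ x y z t : ℝ, 0 < t → nrm φ x y z t ≠ 0 →
    IsLocalMin (fun q : ℝ × ℝ × ℝ × ℝ =>
      G q.1 q.2.1 q.2.2.1 q.2.2.2 - φ q.1 q.2.1 q.2.2.1 q.2.2.2) (x, y, z, t) →
    0 ≤ op f d A φ x y z t

/-- `G` is a viscosity solution of the initial value problem with `G(X, 0) = P · X`: it is continuous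
for `t ≥ 0`, and `G - P · X` is bounded on bounded time intervals -/
structure IsSolution (f : ℝ → ℝ → ℝ) (d A p₁ p₂ p₃ : ℝ) (G : Fn) : Prop where
  cont : ContinuousOn (fun q : ℝ × ℝ × ℝ × ℝ => G q.1 q.2.1 q.2.2.1 q.2.2.2) {q | 0 ≤ q.2.2.2}
  init : ∀ x y z, G x y z 0 = p₁ * x + p₂ * y + p₃ * z
  bdd : ∀ T, ∃ K, ∀ x y z t, 0 ≤ t → t ≤ T → |G x y z t - (p₁ * x + p₂ * y + p₃ * z)| ≤ K
  sub : IsSubsolution f d A G
  super : IsSupersolution f d A G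

/-- the penalisation -/
noncomputable def bt (x : ℝ) : ℝ := √(1 + x ^ 2)

lemma bt_pos (x : ℝ) : 0 < bt x := Real.sqrt_pos.2 (by positivity)

lemma abs_le_bt (x : ℝ) : |x| ≤ bt x := by
  unfold bt
  rw [← Real.sqrt_sq_eq_abs]
  exact Real.sqrt_le_sqrt (by linarith)

lemma bt_sq (x : ℝ) : bt x ^ 2 = 1 + x ^ 2 := Real.sq_sqrt (by positivity)

lemma contDiff_bt : ContDiff ℝ 2 bt := by
  unfold bt
  exact ContDiff.sqrt (by fun_prop) (fun x => by positivity)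

lemma continuous_bt : Continuous bt := contDiff_bt.continuous

theorem exists_localMax (u : ℝ × ℝ × ℝ × ℝ → ℝ) (hu : ContinuousOn u {q | 0 ≤ q.2.2.2})
    (hb : ∀ T, ∃ K, ∀ q : ℝ × ℝ × ℝ × ℝ, 0 ≤ q.2.2.2 → q.2.2.2 ≤ T → u q ≤ K)
    (h0 : ∀ x y z, u (x, y, z, 0) ≤ 0) (q1 : ℝ × ℝ × ℝ × ℝ) (ht1 : 0 ≤ q1.2.2.2)
    (h1 : 0 < u q1) :
    ∃ η δ k τ : ℝ, 0 < η ∧ 0 < δ ∧ 0 ≤ k ∧ ∃ ε1 > 0, ∀ ε, 0 < ε → ε ≤ ε1 →
      ∃ q : ℝ × ℝ × ℝ × ℝ, 0 < q.2.2.2 ∧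
        IsLocalMax (fun q : ℝ × ℝ × ℝ × ℝ => u q -
          (η * q.2.2.2 + δ * Real.exp (k * (q.2.2.2 - τ))) -
            ε * (bt q.1 + bt q.2.1 + bt q.2.2.1)) q := by
  obtain ⟨K, hK⟩ := hb (q1.2.2.2 + 1)
  set t1 := q1.2.2.2 with ht1def
  set K' := max K 0 + 1 with hK'
  have hK'pos : 0 < K' := by have := le_max_right K 0; linarith
  have hKK' : K < K' := by have := le_max_left K 0; linarith
  set u1 := u q1 with hu1
  set B1 := bt q1.1 + bt q1.2.1 + bt q1.2.2.1 with hB1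
  have hB1pos : 0 < B1 := by
    have := bt_pos q1.1; have := bt_pos q1.2.1; have := bt_pos q1.2.2.1; positivity
  refine ⟨u1 / (4 * (t1 + 1)), u1 / 4, K' / (u1 / 4), t1, by positivity, by positivity,
    by positivity, u1 / (4 * B1), by positivity, ?_⟩
  intro ε hε hε1
  set η := u1 / (4 * (t1 + 1)) with hη
  set δ := u1 / 4 with hδ
  set k := K' / δ with hk
  have hηpos : 0 < η := by positivity
  have hδpos : 0 < δ := by positivity
  set W : ℝ × ℝ × ℝ × ℝ → ℝ := fun q => u q -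
          (η * q.2.2.2 + δ * Real.exp (k * (q.2.2.2 - t1))) -
            ε * (bt q.1 + bt q.2.1 + bt q.2.2.1) with hW
  have hWq1 : 0 < W q1 := by
    have e1 : η * t1 ≤ u1 / 4 := by
      rw [hη, div_mul_eq_mul_div, div_le_div_iff₀ (by positivity) (by positivity)]
      nlinarith
    have e2 : ε * B1 ≤ u1 / 4 := by
      have := (le_div_iff₀ (by positivity)).1 hε1
      linarith
    have e3 : W q1 = u1 - (η * t1 + δ * Real.exp (k * (t1 - t1))) - ε * B1 := rfl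
    rw [e3, sub_self, mul_zero, Real.exp_zero]
    linarith
  set R := K' / ε with hR
  have hWle : ∀ q : ℝ × ℝ × ℝ × ℝ, 0 ≤ q.2.2.2 → W q ≤ u q := by
    intro q hq
    have b1 := bt_pos q.1
    have b2 := bt_pos q.2.1
    have b3 := bt_pos q.2.2.1
    have b4 : 0 ≤ η * q.2.2.2 + δ * Real.exp (k * (q.2.2.2 - t1)) := by positivity
    have b5 : 0 ≤ ε * (bt q.1 + bt q.2.1 + bt q.2.2.1) := by positivity
    simp only [hW]
    linarith
  have hWle2 : ∀ q : ℝ × ℝ × ℝ × ℝ, 0 ≤ q.2.2.2 →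
      W q ≤ u q - ε * (bt q.1 + bt q.2.1 + bt q.2.2.1) := by
    intro q hq
    have b4 : 0 ≤ η * q.2.2.2 + δ * Real.exp (k * (q.2.2.2 - t1)) := by positivity
    simp only [hW]
    linarith
  have hbox : ∀ q : ℝ × ℝ × ℝ × ℝ, 0 ≤ q.2.2.2 → q.2.2.2 ≤ t1 + 1 → 0 < W q →
      q ∈ Icc ((-R, -R, -R, 0) : ℝ × ℝ × ℝ × ℝ) (R, R, R, t1 + 1) := by
    intro q hq0 hq1 hWq
    have e1 := hK q hq0 hq1
    have e2 := hWle2 q hq0
    have b1 := bt_pos q.1
    have b2 := bt_pos q.2.1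
    have b3 := bt_pos q.2.2.1
    have e3 : ε * (bt q.1 + bt q.2.1 + bt q.2.2.1) ≤ K' := by linarith
    have e4 : bt q.1 + bt q.2.1 + bt q.2.2.1 ≤ R := by
      rw [hR, le_div_iff₀ hε]; linarith
    have c1 := abs_le.1 ((abs_le_bt q.1).trans (by linarith : bt q.1 ≤ R))
    have c2 := abs_le.1 ((abs_le_bt q.2.1).trans (by linarith : bt q.2.1 ≤ R))
    have c3 := abs_le.1 ((abs_le_bt q.2.2.1).trans (by linarith : bt q.2.2.1 ≤ R))
    obtain ⟨a, b, c, t⟩ := q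
    exact ⟨⟨c1.1, c2.1, c3.1, hq0⟩, ⟨c1.2, c2.2, c3.2, hq1⟩⟩
  have hcont : ContinuousOn W (Icc ((-R, -R, -R, 0) : ℝ × ℝ × ℝ × ℝ) (R, R, R, t1 + 1)) := by
    have h2 : Continuous fun q : ℝ × ℝ × ℝ × ℝ =>
        (η * q.2.2.2 + δ * Real.exp (k * (q.2.2.2 - t1))) := by fun_prop
    have h3 : Continuous fun q : ℝ × ℝ × ℝ × ℝ => ε * (bt q.1 + bt q.2.1 + bt q.2.2.1) := by
      have := continuous_bt
      fun_prop
    refine ContinuousOn.sub (ContinuousOn.sub (hu.mono ?_) h2.continuousOn) h3.continuousOn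
    rintro ⟨a, b, c, t⟩ hq
    exact hq.1.2.2.2
  have hq1box := hbox q1 ht1 (by linarith) hWq1
  obtain ⟨q0, hq0, hmax⟩ := isCompact_Icc.exists_isMaxOn ⟨q1, hq1box⟩ hcont
  have hWq0 : 0 < W q0 := lt_of_lt_of_le hWq1 (hmax hq1box)
  have ht0 : 0 ≤ q0.2.2.2 := hq0.1.2.2.2
  have ht0' : q0.2.2.2 ≤ t1 + 1 := hq0.2.2.2.2
  have hne0 : q0.2.2.2 ≠ 0 := by
    intro h
    have e1 := hWle q0 ht0
    have e2 : u q0 ≤ 0 := by
      have e : q0 = (q0.1, q0.2.1, q0.2.2.1, 0) := by rw [← h]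
      rw [e]
      exact h0 _ _ _
    linarith
  have hne1 : q0.2.2.2 ≠ t1 + 1 := by
    intro h
    have e1 := hK q0 ht0 ht0'
    have e2 : K' ≤ δ * Real.exp (k * (q0.2.2.2 - t1)) := by
      rw [h, add_sub_cancel_left, mul_one]
      have e3 := Real.add_one_le_exp k
      have e4 : δ * k = K' := by rw [hk]; field_simp
      nlinarith
    have b1 := bt_pos q0.1
    have b2 := bt_pos q0.2.1
    have b3 := bt_pos q0.2.2.1
    have b5 : 0 ≤ ε * (bt q0.1 + bt q0.2.1 + bt q0.2.2.1) := by positivity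
    have b6 : 0 ≤ η * q0.2.2.2 := by positivity
    have e5 : W q0 = u q0 - (η * q0.2.2.2 + δ * Real.exp (k * (q0.2.2.2 - t1))) -
            ε * (bt q0.1 + bt q0.2.1 + bt q0.2.2.1) := rfl
    linarith
  have hpos : 0 < q0.2.2.2 := lt_of_le_of_ne ht0 (Ne.symm hne0)
  have hlt : q0.2.2.2 < t1 + 1 := lt_of_le_of_ne ht0' hne1
  refine ⟨q0, hpos, ?_⟩
  have hnhds : ∀ᶠ q : ℝ × ℝ × ℝ × ℝ in 𝓝 q0, 0 < q.2.2.2 ∧ q.2.2.2 < t1 + 1 := by
    have hc : Continuous fun q : ℝ × ℝ × ℝ × ℝ => q.2.2.2 := by fun_prop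
    exact (hc.continuousAt.eventually (lt_mem_nhds hpos)).and
      (hc.continuousAt.eventually (gt_mem_nhds hlt))
  filter_upwards [hnhds] with q hq
  by_cases hWq : 0 < W q
  · exact hmax (hbox q hq.1.le hq.2.le hWq)
  · exact (not_lt.1 hWq).trans hWq0.le

/-- barriers -/
noncomputable def bar (p₁ p₂ p₃ : ℝ) (v : ℝ → ℝ → ℝ) (h : ℝ → ℝ) (ε : ℝ) : Fn := fun x y z t =>
  p₁ * x + p₂ * y + p₃ * z + v x y + h t + ε * (bt x + bt y + bt z)

lemma isTest_bar {p₁ p₂ p₃ : ℝ} {v : ℝ → ℝ → ℝ} {h : ℝ → ℝ} {ε : ℝ}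
    (hv : ContDiff ℝ 2 (fun q : ℝ × ℝ => v q.1 q.2)) (hh : ContDiff ℝ 2 h) :
    IsTest (bar p₁ p₂ p₃ v h ε) := by
  unfold IsTest bar
  have h1 : ContDiff ℝ 2 (fun q : ℝ × ℝ × ℝ × ℝ => v q.1 q.2.1) :=
    hv.comp (contDiff_fst.prodMk (contDiff_fst.comp contDiff_snd))
  have h2 : ContDiff ℝ 2 (fun q : ℝ × ℝ × ℝ × ℝ => h q.2.2.2) := hh.comp (by fun_prop)
  have h3 : ContDiff ℝ 2 (fun q : ℝ × ℝ × ℝ × ℝ => bt q.1) := contDiff_bt.comp (by fun_prop)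
  have h4 : ContDiff ℝ 2 (fun q : ℝ × ℝ × ℝ × ℝ => bt q.2.1) := contDiff_bt.comp (by fun_prop)
  have h5 : ContDiff ℝ 2 (fun q : ℝ × ℝ × ℝ × ℝ => bt q.2.2.1) := contDiff_bt.comp (by fun_prop)
  have h6 : ContDiff ℝ 2 (fun q : ℝ × ℝ × ℝ × ℝ => p₁ * q.1 + p₂ * q.2.1 + p₃ * q.2.2.1) := by
    fun_prop
  exact ((h6.add h1).add h2).add (contDiff_const.mul ((h3.add h4).add h5))

lemma dt_bar {p₁ p₂ p₃ : ℝ} {v : ℝ → ℝ → ℝ} {h : ℝ → ℝ} {ε : ℝ} {h' : ℝ} {x y z t : ℝ}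
    (hh : HasDerivAt h h' t) : dt (bar p₁ p₂ p₃ v h ε) x y z t = h' := by
  unfold dt bar
  have := ((hh.const_add (p₁ * x + p₂ * y + p₃ * z + v x y)).add_const
    (ε * (bt x + bt y + bt z)))
  exact this.deriv

section comparison

variable {f : ℝ → ℝ → ℝ} {d A p₁ p₂ p₃ : ℝ} {G : Fn} {v : ℝ → ℝ → ℝ} {V c : ℝ}

/-- comparison of a subsolution with a smooth barrier -/
theorem comp_sub (hG : IsSolution f d A p₁ p₂ p₃ G)
    (hv : ContDiff ℝ 2 (fun q : ℝ × ℝ => v q.1 q.2)) (hvb : ∀ x y, |v x y| ≤ V)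
    (hop : ∀ η > 0, ∃ ε0 > 0, ∀ ε, |ε| < ε0 → ∀ (h : ℝ → ℝ) (x y z t : ℝ),
      nrm (bar p₁ p₂ p₃ v h ε) x y z t ≠ 0 ∧
      c - η ≤ max (1 - d * curv (bar p₁ p₂ p₃ v h ε) x y z t) 0 *
        nrm (bar p₁ p₂ p₃ v h ε) x y z t + A * f x y * d3 (bar p₁ p₂ p₃ v h ε) x y z t)
    (x y z t : ℝ) (ht : 0 ≤ t) :
    G x y z t ≤ p₁ * x + p₂ * y + p₃ * z + v x y - c * t + V := by
  by_contra hcon
  push Not at hcon
  let u : ℝ × ℝ × ℝ × ℝ → ℝ := fun q => G q.1 q.2.1 q.2.2.1 q.2.2.2 -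
    (p₁ * q.1 + p₂ * q.2.1 + p₃ * q.2.2.1 + v q.1 q.2.1 - c * q.2.2.2 + V)
  have hvc : Continuous (fun q : ℝ × ℝ => v q.1 q.2) := hv.continuous
  have hvc' : Continuous (fun q : ℝ × ℝ × ℝ × ℝ => v q.1 q.2.1) :=
    hvc.comp (continuous_fst.prodMk (continuous_fst.comp continuous_snd))
  have hu : ContinuousOn u {q | 0 ≤ q.2.2.2} := by
    refine hG.cont.sub (Continuous.continuousOn ?_)
    fun_prop
  have hb : ∀ T, ∃ K, ∀ q : ℝ × ℝ × ℝ × ℝ, 0 ≤ q.2.2.2 → q.2.2.2 ≤ T → u q ≤ K := by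
    intro T
    obtain ⟨K, hK⟩ := hG.bdd T
    refine ⟨K + V + |c| * |T| - V, fun q h1 h2 => ?_⟩
    have e1 := (abs_le.1 (hK q.1 q.2.1 q.2.2.1 q.2.2.2 h1 h2)).2
    have e2 := (abs_le.1 (hvb q.1 q.2.1)).1
    have e3 : c * q.2.2.2 ≤ |c| * |T| := by
      have : c * q.2.2.2 ≤ |c| * q.2.2.2 := mul_le_mul_of_nonneg_right (le_abs_self c) h1
      have : |c| * q.2.2.2 ≤ |c| * |T| :=
        mul_le_mul_of_nonneg_left (h2.trans (le_abs_self T)) (abs_nonneg c)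
      linarith
    simp only [u]
    linarith
  have h0 : ∀ x y z, u (x, y, z, 0) ≤ 0 := by
    intro x y z
    have e2 := (abs_le.1 (hvb x y)).1
    simp only [u, hG.init]
    linarith
  obtain ⟨η, δ, k, τ, hη, hδ, hk, ε1, hε1, hmain⟩ := exists_localMax u hu hb h0 (x, y, z, t) ht
    (by simp only [u]; linarith)
  obtain ⟨ε0, hε0, hop'⟩ := hop (η / 2) (by positivity)
  obtain ⟨q, hq, hloc⟩ := hmain (min ε1 (ε0 / 2)) (by positivity) (min_le_left _ _)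
  set ε := min ε1 (ε0 / 2) with hε
  have hεpos : 0 < ε := by positivity
  have hεlt : |ε| < ε0 := by
    rw [abs_of_pos hεpos]
    have := min_le_right ε1 (ε0 / 2)
    linarith
  let h : ℝ → ℝ := fun t => (V - c * t) + (η * t + δ * Real.exp (k * (t - τ)))
  have hh : ContDiff ℝ 2 h := by
    simp only [h]
    fun_prop
  obtain ⟨hn, hop2⟩ := hop' ε hεlt h q.1 q.2.1 q.2.2.1 q.2.2.2
  have key := hG.sub (bar p₁ p₂ p₃ v h ε) (isTest_bar hv hh) q.1 q.2.1 q.2.2.1 q.2.2.2 hq hn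
    (by
      have e : (fun q : ℝ × ℝ × ℝ × ℝ => u q -
          (η * q.2.2.2 + δ * Real.exp (k * (q.2.2.2 - τ))) -
            ε * (bt q.1 + bt q.2.1 + bt q.2.2.1)) = (fun q : ℝ × ℝ × ℝ × ℝ =>
          G q.1 q.2.1 q.2.2.1 q.2.2.2 - bar p₁ p₂ p₃ v h ε q.1 q.2.1 q.2.2.1 q.2.2.2) := by
        funext q
        simp only [u, bar, h]
        ring
      rw [e] at hloc
      exact hloc)
  have hd : HasDerivAt h ((0 - c * 1) + (η * 1 + δ * (Real.exp (k * (q.2.2.2 - τ)) *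
      (k * (1 - 0))))) q.2.2.2 := by
    refine ((hasDerivAt_const _ V).sub ((hasDerivAt_id _).const_mul c)).add
      (((hasDerivAt_id _).const_mul η).add (HasDerivAt.const_mul δ ?_))
    exact HasDerivAt.exp (((hasDerivAt_id _).sub (hasDerivAt_const _ τ)).const_mul k)
  unfold op at key
  rw [dt_bar hd] at key
  have e1 : 0 ≤ δ * (Real.exp (k * (q.2.2.2 - τ)) * (k * (1 - 0))) := by
    have := Real.exp_pos (k * (q.2.2.2 - τ))
    rw [sub_zero, mul_one]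
    positivity
  linarith

/-- comparison of a supersolution with a smooth barrier -/
theorem comp_super (hG : IsSolution f d A p₁ p₂ p₃ G)
    (hv : ContDiff ℝ 2 (fun q : ℝ × ℝ => v q.1 q.2)) (hvb : ∀ x y, |v x y| ≤ V)
    (hop : ∀ η > 0, ∃ ε0 > 0, ∀ ε, |ε| < ε0 → ∀ (h : ℝ → ℝ) (x y z t : ℝ),
      nrm (bar p₁ p₂ p₃ v h ε) x y z t ≠ 0 ∧
      max (1 - d * curv (bar p₁ p₂ p₃ v h ε) x y z t) 0 *
        nrm (bar p₁ p₂ p₃ v h ε) x y z t + A * f x y * d3 (bar p₁ p₂ p₃ v h ε) x y z t ≤ c + η)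
    (x y z t : ℝ) (ht : 0 ≤ t) :
    p₁ * x + p₂ * y + p₃ * z + v x y - c * t - V ≤ G x y z t := by
  by_contra hcon
  push Not at hcon
  let u : ℝ × ℝ × ℝ × ℝ → ℝ := fun q =>
    (p₁ * q.1 + p₂ * q.2.1 + p₃ * q.2.2.1 + v q.1 q.2.1 - c * q.2.2.2 - V) -
      G q.1 q.2.1 q.2.2.1 q.2.2.2
  have hvc : Continuous (fun q : ℝ × ℝ => v q.1 q.2) := hv.continuous
  have hvc' : Continuous (fun q : ℝ × ℝ × ℝ × ℝ => v q.1 q.2.1) :=
    hvc.comp (continuous_fst.prodMk (continuous_fst.comp continuous_snd))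
  have hu : ContinuousOn u {q | 0 ≤ q.2.2.2} := by
    refine ContinuousOn.sub (Continuous.continuousOn ?_) hG.cont
    fun_prop
  have hb : ∀ T, ∃ K, ∀ q : ℝ × ℝ × ℝ × ℝ, 0 ≤ q.2.2.2 → q.2.2.2 ≤ T → u q ≤ K := by
    intro T
    obtain ⟨K, hK⟩ := hG.bdd T
    refine ⟨K + V + |c| * |T| - V, fun q h1 h2 => ?_⟩
    have e1 := (abs_le.1 (hK q.1 q.2.1 q.2.2.1 q.2.2.2 h1 h2)).1
    have e2 := (abs_le.1 (hvb q.1 q.2.1)).2
    have e3 : -c * q.2.2.2 ≤ |c| * |T| := by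
      have : -c * q.2.2.2 ≤ |c| * q.2.2.2 := mul_le_mul_of_nonneg_right (neg_le_abs c) h1
      have : |c| * q.2.2.2 ≤ |c| * |T| :=
        mul_le_mul_of_nonneg_left (h2.trans (le_abs_self T)) (abs_nonneg c)
      linarith
    simp only [u]
    linarith
  have h0 : ∀ x y z, u (x, y, z, 0) ≤ 0 := by
    intro x y z
    have e2 := (abs_le.1 (hvb x y)).2
    simp only [u, hG.init]
    linarith
  obtain ⟨η, δ, k, τ, hη, hδ, hk, ε1, hε1, hmain⟩ := exists_localMax u hu hb h0 (x, y, z, t) ht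
    (by simp only [u]; linarith)
  obtain ⟨ε0, hε0, hop'⟩ := hop (η / 2) (by positivity)
  obtain ⟨q, hq, hloc⟩ := hmain (min ε1 (ε0 / 2)) (by positivity) (min_le_left _ _)
  set ε := min ε1 (ε0 / 2) with hε
  have hεpos : 0 < ε := by positivity
  have hεlt : |(-ε)| < ε0 := by
    rw [abs_neg, abs_of_pos hεpos]
    have := min_le_right ε1 (ε0 / 2)
    linarith
  let h : ℝ → ℝ := fun t => (-V - c * t) - (η * t + δ * Real.exp (k * (t - τ)))
  have hh : ContDiff ℝ 2 h := by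
    simp only [h]
    fun_prop
  obtain ⟨hn, hop2⟩ := hop' (-ε) hεlt h q.1 q.2.1 q.2.2.1 q.2.2.2
  have key := hG.super (bar p₁ p₂ p₃ v h (-ε)) (isTest_bar hv hh) q.1 q.2.1 q.2.2.1 q.2.2.2 hq hn
    (by
      have e : (fun q : ℝ × ℝ × ℝ × ℝ => u q -
          (η * q.2.2.2 + δ * Real.exp (k * (q.2.2.2 - τ))) -
            ε * (bt q.1 + bt q.2.1 + bt q.2.2.1)) = (fun q : ℝ × ℝ × ℝ × ℝ =>
          -(G q.1 q.2.1 q.2.2.1 q.2.2.2 -
            bar p₁ p₂ p₃ v h (-ε) q.1 q.2.1 q.2.2.1 q.2.2.2)) := by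
        funext q
        simp only [u, bar, h]
        ring
      rw [e] at hloc
      have := hloc.neg
      simpa using this)
  have hd : HasDerivAt h ((0 - c * 1) - (η * 1 + δ * (Real.exp (k * (q.2.2.2 - τ)) *
      (k * (1 - 0))))) q.2.2.2 := by
    refine ((hasDerivAt_const _ (-V)).sub ((hasDerivAt_id _).const_mul c)).sub
      (((hasDerivAt_id _).const_mul η).add (HasDerivAt.const_mul δ ?_))
    exact HasDerivAt.exp (((hasDerivAt_id _).sub (hasDerivAt_const _ τ)).const_mul k)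
  unfold op at key
  rw [dt_bar hd] at key
  have e1 : 0 ≤ δ * (Real.exp (k * (q.2.2.2 - τ)) * (k * (1 - 0))) := by
    have := Real.exp_pos (k * (q.2.2.2 - τ))
    rw [sub_zero, mul_one]
    positivity
  linarith

end comparison

end Pool.Agent.U574.FS
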